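import Pool.Agent.DiracAdd.Arr

/-!
A lower bound for the additive constant of Q1.
-/

set_option autoImplicit false

namespace Pool.Agent.Results.MP_508ad1_co.ConstantAtLeast18

open Pool.Agent.DiracAdd

/-- `L` is an `(n, C)`-admissible arrangement of lines of the real plane. -/
def Admissible (n : ℕ) (C : ℝ) (L : Finset (AffineSubspace ℝ (ℝ × ℝ))) : Prop :=
  (∀ l ∈ L, Module.finrank ℝ l.direction = 1) ∧
  (∀ l ∈ L, ({p : ℝ × ℝ | p ∈ l ∧ ∃ m ∈ L, m ≠ l ∧ p ∈ m}).ncard ≤ n) ∧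
  ((({p : ℝ × ℝ | ∃ l ∈ L, ∃ m ∈ L, l ≠ m ∧ p ∈ l ∧ p ∈ m}).ncard : ℝ) ≤ C * (n : ℝ) ^ 2) ∧
  (∀ l ∈ L, ({m : AffineSubspace ℝ (ℝ × ℝ) | m ∈ L ∧ AffineSubspace.Parallel m l}).ncard ≤ n) ∧
  (∀ p : ℝ × ℝ, ({l : AffineSubspace ℝ (ℝ × ℝ) | l ∈ L ∧ p ∈ l}).ncard ≤ n + 1)

/-- For every `C ≥ 2` there is an `(n, C)`-admissible arrangement with `n = 1155` and exactly
`2 n + 18` lines, so every constant `D` for which all `(n, C)`-admissible arrangements have at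
most `2 n + D` lines satisfies `D ≥ 18`. -/
theorem result (C : ℝ) (hC : 2 ≤ C) :
    (∃ L : Finset (AffineSubspace ℝ (ℝ × ℝ)), Admissible 1155 C L ∧ L.card = 2 * 1155 + 18) ∧
    ∀ D : ℝ, (∀ n : ℕ, 0 < n → ∀ L : Finset (AffineSubspace ℝ (ℝ × ℝ)), Admissible n C L →
      (L.card : ℝ) ≤ 2 * (n : ℝ) + D) → 18 ≤ D := by
  have main : ∃ L : Finset (AffineSubspace ℝ (ℝ × ℝ)),
      Admissible 1155 C L ∧ L.card = 2 * 1155 + 18 := by
    refine ⟨Arr, ⟨?_, ?_, ?_, ?_, ?_⟩, ?_⟩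
    · intro l hl
      obtain ⟨u, hu, rfl⟩ := mem_Arr.mp hl
      exact finrank_ln (dir_ne hu)
    · intro l hl
      obtain ⟨u, hu, rfl⟩ := mem_Arr.mp hl
      exact (Vx_finite_card hu).2
    · have h := Vall_card
      have h2 : (2 : ℝ) * (Vall.ncard : ℝ) ≤ 2328 * 1155 := by exact_mod_cast h
      change (Vall.ncard : ℝ) ≤ C * ((1155 : ℕ) : ℝ) ^ 2
      push_cast
      nlinarith
    · intro l hl
      exact parallel_card hl
    · intro p
      exact point_card p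
    · exact card_Arr
  refine ⟨main, ?_⟩
  intro D hD
  obtain ⟨L, hL, hc⟩ := main
  have h := hD 1155 (by norm_num) L hL
  rw [hc] at h
  push_cast at h
  linarith

end Pool.Agent.Results.MP_508ad1_co.ConstantAtLeast18
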