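import Mathlib

/-!
# Arrangements of lines on a cubic curve of the dual plane

Let every line of `L` meet the other lines of `L` in at most `n` points and be parallel to at most
`n` lines of `L`, and let every point lie on at most `n + 1` lines of `L`. If all but `s` lines
`u x + v y + w = 0` of `L` satisfy `F (u, v, w) = 0` for a nonzero cubic form `F`, then `L` has at
most `2 n + 3 + s` lines. In particular this holds if all but `s` lines of `L` are in three pencils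
(a pencil is the set of all lines through a point or of all lines with a given direction). If at
most three pencils have more than three lines in `L`, then `L` has at most `2 n + 3` lines: either
all lines are in these pencils, or there is a line which meets at most two others in every point.

Lines, points and directions are represented by vectors of `ℝ³`. A pencil on which `F` does not
vanish contains at most three lines of the cubic; so a line of the cubic which is in no pencil on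
which `F` vanishes gives the bound at once. There are at most three pencils on which `F` vanishes,
and it remains to consider three pencils. The lines of the three pencils which are not sides of the
triangle of the three centres get nonzero real parameters such that `a * b * c = 1` for concurrent
lines `a`, `b`, `c` of the three pencils (for collinear centres the parameters are exponentials).
Every pencil is divided into two classes by the sign of the parameter. Let `X`, `Y`, `Z` be classes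
of the three pencils, `x` the line of `X` with the largest `|x|` and `z` the line of `Z` with the
smallest `|z|`: at most one line of `Y` both meets `x` on a line of `Z` and meets `z` on a line of
`X`. If all six classes are nonempty, the twelve extreme lines give the bound, otherwise two extreme
lines suffice. (Over the complex numbers the statement is false.)
-/

set_option autoImplicit false

namespace Pool.Agent.Results.MP_508ad1_co.CubicCurve

open Finset

/-! ### Three sets of nonzero real numbers -/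

private lemma posr {u v : ℝ} (h : 0 < u * v) (hv : 0 ≤ v) : 0 < u := by
  by_contra h1
  exact absurd (mul_nonpos_of_nonpos_of_nonneg (not_lt.1 h1) hv) (not_le.2 h)

open scoped Classical in
/-- The number of `y ∈ Y` with `x * y * z = 1` for some `z ∈ Z`. -/
private noncomputable def T (Y Z : Finset ℝ) (x : ℝ) : ℕ :=
  (Y.filter fun y => ∃ z ∈ Z, x * y * z = 1).card

private lemma T_symm (Y Z : Finset ℝ) (x : ℝ) : T Y Z x ≤ T Z Y x := by
  classical
  unfold T
  refine Finset.card_le_card_of_injOn (fun y => 1 / (x * y)) ?_ ?_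
  · intro y hy
    rw [Finset.mem_coe, Finset.mem_filter] at hy
    obtain ⟨hy, z, hz, h⟩ := hy
    have h1 : x * y ≠ 0 := fun h0 => by rw [h0, zero_mul] at h; exact zero_ne_one h
    have h2 : 1 / (x * y) = z := by
      rw [div_eq_iff h1]; linarith
    show 1 / (x * y) ∈ _
    rw [h2, Finset.mem_coe, Finset.mem_filter]
    exact ⟨hz, y, hy, by linarith⟩
  · intro y hy y' hy' h
    rw [Finset.mem_coe, Finset.mem_filter] at hy hy'
    obtain ⟨hy, z, hz, h1⟩ := hy
    obtain ⟨hy', z', hz', h2⟩ := hy'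
    have h3 : x * y ≠ 0 := fun h0 => by rw [h0, zero_mul] at h1; exact zero_ne_one h1
    have h4 : x * y' ≠ 0 := fun h0 => by rw [h0, zero_mul] at h2; exact zero_ne_one h2
    have h5 : x ≠ 0 := left_ne_zero_of_mul h3
    have h6 : 1 / (x * y) = 1 / (x * y') := h
    rw [div_eq_div_iff h3 h4, one_mul, one_mul] at h6
    exact (mul_left_cancel₀ h5 h6).symm

private lemma T_mono {Y Z Y' Z' : Finset ℝ} {x : ℝ}
    (h : ∀ y ∈ Y, ∀ z ∈ Z, x * y * z = 1 → y ∈ Y' ∧ z ∈ Z') : T Y Z x ≤ T Y' Z' x := by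
  classical
  unfold T
  refine Finset.card_le_card fun y hy => ?_
  rw [Finset.mem_filter] at hy ⊢
  obtain ⟨hy, z, hz, h1⟩ := hy
  exact ⟨(h y hy z hz h1).1, z, (h y hy z hz h1).2, h1⟩

private lemma T_zero {Y Z : Finset ℝ} {x : ℝ} (h : ∀ y ∈ Y, ∀ z ∈ Z, x * y * z ≠ 1) :
    T Y Z x = 0 := by
  classical
  unfold T
  rw [Finset.card_eq_zero, Finset.filter_eq_empty_iff]
  rintro y hy ⟨z, hz, h1⟩
  exact h y hy z hz h1

/-- The pairing lemma. -/
private lemma pair {X Y Z : Finset ℝ} {x z : ℝ} (hx : x ≠ 0) (hz : z ≠ 0)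
    (hX : ∀ x' ∈ X, |x'| ≤ |x| ∧ 0 < x' * x) (hZ : ∀ z' ∈ Z, |z| ≤ |z'|) :
    T Y Z x + T Y X z ≤ Y.card + 1 := by
  classical
  unfold T
  rw [← Finset.card_union_add_card_inter]
  refine Nat.add_le_add (Finset.card_le_card ?_) ?_
  · exact Finset.union_subset (Finset.filter_subset _ _) (Finset.filter_subset _ _)
  · rw [Finset.card_le_one]
    have key : ∀ y ∈ (Y.filter fun y => ∃ z' ∈ Z, x * y * z' = 1) ∩
        (Y.filter fun y => ∃ x' ∈ X, z * y * x' = 1), z * y * x = 1 := by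
      intro y hy
      rw [Finset.mem_inter, Finset.mem_filter, Finset.mem_filter] at hy
      obtain ⟨⟨hy, z', hz', h1⟩, ⟨-, x', hx', h2⟩⟩ := hy
      obtain ⟨h3, h4⟩ := hX x' hx'
      have h5 := hZ z' hz'
      have ax : 0 < |x| := abs_pos.2 hx
      have az : 0 < |z| := abs_pos.2 hz
      have h6 : |x| * |y| * |z'| = 1 := by rw [← abs_mul, ← abs_mul, h1, abs_one]
      have h7 : |z| * |y| * |x'| = 1 := by rw [← abs_mul, ← abs_mul, h2, abs_one]
      have ay : 0 < |y| := by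
        rcases (abs_nonneg y).lt_or_eq with h | h
        · exact h
        · rw [← h, mul_zero, zero_mul] at h6; exact absurd h6 zero_ne_one
      have h8 : |x'| = |x| := by
        refine le_antisymm h3 ?_
        by_contra h9
        rw [not_le] at h9
        have h10 : |z| * |y| * |x'| < |z| * |y| * |x| := mul_lt_mul_of_pos_left h9 (by positivity)
        have h11 : |y| * |x| * |z| ≤ |y| * |x| * |z'| :=
          mul_le_mul_of_nonneg_left h5 (by positivity)
        nlinarith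
      have h9 : x' = x := by
        rcases abs_eq_abs.1 h8 with h | h
        · exact h
        · rw [h] at h4
          nlinarith [mul_self_nonneg x]
      rw [← h9]; exact h2
    intro y hy y' hy'
    have h1 := key y hy
    have h2 := key y' hy'
    have h3 : z * x * (y - y') = 0 := by linear_combination h1 - h2
    rcases mul_eq_zero.1 h3 with h | h
    · exact absurd h (mul_ne_zero hz hx)
    · linarith

private lemma extr {X : Finset ℝ} (hX : X.Nonempty) :
    ∃ x1 ∈ X, ∃ x2 ∈ X, ∀ x ∈ X, |x| ≤ |x1| ∧ |x2| ≤ |x| := by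
  obtain ⟨x1, h1, h2⟩ := Finset.exists_max_image X (fun x => |x|) hX
  obtain ⟨x2, h3, h4⟩ := Finset.exists_min_image X (fun x => |x|) hX
  exact ⟨x1, h1, x2, h3, fun x hx => ⟨h2 x hx, h4 x hx⟩⟩

/-- The pairing lemma for the six extreme elements of three sets. -/
private lemma six {X Y Z : Finset ℝ} (hX : ∀ x ∈ X, ∀ x' ∈ X, 0 < x * x')
    (hY : ∀ x ∈ Y, ∀ x' ∈ Y, 0 < x * x') (hZ : ∀ x ∈ Z, ∀ x' ∈ Z, 0 < x * x')
    {x1 x2 y1 y2 z1 z2 : ℝ} (mx1 : x1 ∈ X) (mx2 : x2 ∈ X) (my1 : y1 ∈ Y) (my2 : y2 ∈ Y)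
    (mz1 : z1 ∈ Z) (mz2 : z2 ∈ Z) (ex : ∀ x ∈ X, |x| ≤ |x1| ∧ |x2| ≤ |x|)
    (ey : ∀ x ∈ Y, |x| ≤ |y1| ∧ |y2| ≤ |x|) (ez : ∀ x ∈ Z, |x| ≤ |z1| ∧ |z2| ≤ |x|) :
    T Y Z x1 + T Y Z x2 + T Z X y1 + T Z X y2 + T X Y z1 + T X Y z2 ≤
      X.card + Y.card + Z.card + 3 := by
  have ne : ∀ {W : Finset ℝ}, (∀ x ∈ W, ∀ x' ∈ W, 0 < x * x') → ∀ w ∈ W, w ≠ 0 := by
    intro W h w hw h0
    have := h w hw w hw
    rw [h0, mul_zero] at this
    exact lt_irrefl _ this
  have p1 := pair (Y := Y) (ne hX _ mx1) (ne hZ _ mz2) (fun x hx => ⟨(ex x hx).1, hX x hx x1 mx1⟩)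
    (fun z hz => (ez z hz).2)
  have p2 := pair (Y := Z) (ne hY _ my1) (ne hX _ mx2) (fun x hx => ⟨(ey x hx).1, hY x hx y1 my1⟩)
    (fun z hz => (ex z hz).2)
  have p3 := pair (Y := X) (ne hZ _ mz1) (ne hY _ my2) (fun x hx => ⟨(ez x hx).1, hZ x hx z1 mz1⟩)
    (fun z hz => (ey z hz).2)
  have s1 := T_symm X Y z2
  have s2 := T_symm Y Z x2
  have s3 := T_symm Z X y2
  omega

/-- The hypothesis on the three sets. -/
private def Hyp (A B C : Finset ℝ) (m e : ℕ) : Prop :=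
  A.Nonempty ∧ (∀ a ∈ A, a ≠ 0) ∧ ∀ a ∈ A, B.card + C.card + e ≤ m + T B C a

/-- One of the sets has a constant sign. -/
private lemma one {A B C : Finset ℝ} {m e e' e'' : ℕ} (hA : Hyp A B C m e)
    (hB : Hyp B C A m e') (hC : Hyp C A B m e'') (he'' : e'' ≤ 1)
    (hs : ∀ a ∈ A, ∀ a' ∈ A, 0 < a * a') :
    A.card + B.card + C.card + e' + e'' ≤ 2 * m + 1 := by
  classical
  obtain ⟨⟨a, ha⟩, nA, tA⟩ := hA
  obtain ⟨⟨b₁, hb₁⟩, nB, tB⟩ := hB
  obtain ⟨⟨c₁, hc₁⟩, nC, tC⟩ := hC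
  have hCpos : 0 < C.card := Finset.card_pos.2 ⟨c₁, hc₁⟩
  by_cases h : ∃ b ∈ B, ∃ c ∈ C, 0 < a * b * c
  · obtain ⟨b, hb, c, hc, habc⟩ := h
    obtain ⟨b0, mb0, b9, -, eb⟩ := extr (X := B.filter fun x => 0 < x * b)
      ⟨b, Finset.mem_filter.2 ⟨hb, mul_self_pos.2 (nB b hb)⟩⟩
    obtain ⟨c9, -, c0, mc0, ec⟩ := extr (X := C.filter fun x => 0 < x * c)
      ⟨c, Finset.mem_filter.2 ⟨hc, mul_self_pos.2 (nC c hc)⟩⟩
    have sb : ∀ x ∈ B.filter (fun x => 0 < x * b), 0 < x * b0 := by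
      intro x hx
      rw [Finset.mem_filter] at hx mb0
      have h1 : 0 < (x * b) * (b0 * b) := mul_pos hx.2 mb0.2
      have h2 : (x * b) * (b0 * b) = (x * b0) * (b * b) := by ring
      rw [h2] at h1
      exact posr h1 (mul_self_nonneg b)
    have p := pair (Y := A) (X := B.filter fun x => 0 < x * b) (Z := C.filter fun x => 0 < x * c)
      (nB b0 (Finset.mem_filter.1 mb0).1) (nC c0 (Finset.mem_filter.1 mc0).1)
      (fun x hx => ⟨(eb x hx).1, sb x hx⟩) (fun z hz => (ec z hz).2)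
    rw [Finset.mem_filter] at mb0 mc0
    have q1 : T C A b0 ≤ T A (C.filter fun x => 0 < x * c) b0 := by
      refine (T_symm _ _ _).trans (T_mono fun a' ha' c' hc' h1 => ⟨ha', ?_⟩)
      rw [Finset.mem_filter]
      refine ⟨hc', ?_⟩
      have h2 : 0 < (a * a') * (b0 * b) := mul_pos (hs a ha a' ha') mb0.2
      have h3 : (c' * c) * ((a * a') * (b0 * b)) = (a * b * c) * (b0 * a' * c') := by ring
      have h4 : 0 < (c' * c) * ((a * a') * (b0 * b)) := by rw [h3, h1, mul_one]; exact habc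
      exact posr h4 h2.le
    have q2 : T A B c0 ≤ T A (B.filter fun x => 0 < x * b) c0 := by
      refine T_mono fun a' ha' b' hb' h1 => ⟨ha', ?_⟩
      rw [Finset.mem_filter]
      refine ⟨hb', ?_⟩
      have h2 : 0 < (a * a') * (c0 * c) := mul_pos (hs a ha a' ha') mc0.2
      have h3 : (b' * b) * ((a * a') * (c0 * c)) = (a * b * c) * (c0 * a' * b') := by ring
      have h4 : 0 < (b' * b) * ((a * a') * (c0 * c)) := by rw [h3, h1, mul_one]; exact habc
      exact posr h4 h2.le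
    have r1 := tB b0 mb0.1
    have r2 := tC c0 mc0.1
    omega
  · push Not at h
    have z1 : T B C a = 0 := T_zero fun b hb c hc h1 => by
      have := h b hb c hc
      rw [h1] at this
      linarith
    have z2 : T C A b₁ = 0 := T_zero fun c hc a' ha' h1 => by
      have h2 := h b₁ hb₁ c hc
      have h3 : 0 < a * a' := hs a ha a' ha'
      have h4 : (a * b₁ * c) * (a' * a') = (a * a') * (b₁ * c * a') := by ring
      rw [h1, mul_one] at h4
      have h5 : (a * b₁ * c) * (a' * a') ≤ 0 :=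
        mul_nonpos_of_nonpos_of_nonneg h2 (mul_self_nonneg _)
      linarith
    have r1 := tA a ha
    have r2 := tB b₁ hb₁
    omega

private lemma split {Y Z Y1 Y2 Z1 Z2 : Finset ℝ} {x : ℝ} (hY : ∀ y ∈ Y, y ∈ Y1 ∨ y ∈ Y2)
    (h1 : ∀ y ∈ Y1, ∀ z ∈ Z, x * y * z = 1 → z ∈ Z1)
    (h2 : ∀ y ∈ Y2, ∀ z ∈ Z, x * y * z = 1 → z ∈ Z2) :
    T Y Z x ≤ T Y1 Z1 x + T Y2 Z2 x := by
  classical
  unfold T
  refine (Finset.card_le_card ?_).trans (Finset.card_union_le _ _)
  intro y hy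
  rw [Finset.mem_filter] at hy
  obtain ⟨hy, z, hz, h⟩ := hy
  rw [Finset.mem_union, Finset.mem_filter, Finset.mem_filter]
  rcases hY y hy with h3 | h3
  · exact Or.inl ⟨h3, z, h1 y h3 z hz h, h⟩
  · exact Or.inr ⟨h3, z, h2 y h3 z hz h, h⟩

/-- All six sign classes are nonempty. -/
private lemma all {A B C A1 A2 B1 B2 C1 C2 : Finset ℝ} {m e e' e'' : ℕ} (hA : Hyp A B C m e)
    (hB : Hyp B C A m e') (hC : Hyp C A B m e'')
    (eA1 : ∀ x, x ∈ A1 ↔ x ∈ A ∧ 0 < x) (eA2 : ∀ x, x ∈ A2 ↔ x ∈ A ∧ x < 0)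
    (eB1 : ∀ x, x ∈ B1 ↔ x ∈ B ∧ 0 < x) (eB2 : ∀ x, x ∈ B2 ↔ x ∈ B ∧ x < 0)
    (eC1 : ∀ x, x ∈ C1 ↔ x ∈ C ∧ 0 < x) (eC2 : ∀ x, x ∈ C2 ↔ x ∈ C ∧ x < 0)
    (nA1 : A1.Nonempty) (nA2 : A2.Nonempty) (nB1 : B1.Nonempty) (nB2 : B2.Nonempty)
    (nC1 : C1.Nonempty) (nC2 : C2.Nonempty) :
    3 * (A.card + B.card + C.card) + 2 * (e + e' + e'') ≤ 6 * m + 6 := by
  classical
  have cd : ∀ {W W1 W2 : Finset ℝ}, (∀ w ∈ W, w ≠ 0) → (∀ x, x ∈ W1 ↔ x ∈ W ∧ 0 < x) →
      (∀ x, x ∈ W2 ↔ x ∈ W ∧ x < 0) → W1.card + W2.card = W.card := by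
    intro W W1 W2 h0 h1 h2
    rw [← Finset.card_union_of_disjoint]
    · congr 1
      ext x
      rw [Finset.mem_union, h1, h2]
      constructor
      · rintro (h | h)
        · exact h.1
        · exact h.1
      · intro h
        rcases lt_or_gt_of_ne (h0 x h) with h3 | h3
        · exact Or.inr ⟨h, h3⟩
        · exact Or.inl ⟨h, h3⟩
    · rw [Finset.disjoint_left]
      intro x hx hx'
      exact lt_asymm ((h1 x).1 hx).2 ((h2 x).1 hx').2
  have cA := cd hA.2.1 eA1 eA2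
  have cB := cd hB.2.1 eB1 eB2
  have cC := cd hC.2.1 eC1 eC2
  have pp : ∀ {W W1 : Finset ℝ}, (∀ x, x ∈ W1 ↔ x ∈ W ∧ 0 < x) →
      ∀ x ∈ W1, ∀ x' ∈ W1, 0 < x * x' := fun h x hx x' hx' =>
    mul_pos ((h x).1 hx).2 ((h x').1 hx').2
  have nn : ∀ {W W1 : Finset ℝ}, (∀ x, x ∈ W1 ↔ x ∈ W ∧ x < 0) →
      ∀ x ∈ W1, ∀ x' ∈ W1, 0 < x * x' := fun h x hx x' hx' =>
    mul_pos_of_neg_of_neg ((h x).1 hx).2 ((h x').1 hx').2
  -- splitting
  have sg : ∀ {W W1 W2 : Finset ℝ}, (∀ w ∈ W, w ≠ 0) → (∀ x, x ∈ W1 ↔ x ∈ W ∧ 0 < x) →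
      (∀ x, x ∈ W2 ↔ x ∈ W ∧ x < 0) → ∀ w ∈ W, w ∈ W1 ∨ w ∈ W2 := by
    intro W W1 W2 h0 h1 h2 w hw
    rcases lt_or_gt_of_ne (h0 w hw) with h3 | h3
    · exact Or.inr ((h2 w).2 ⟨hw, h3⟩)
    · exact Or.inl ((h1 w).2 ⟨hw, h3⟩)
  have sp : ∀ {Y Y1 Y2 Z Z1 Z2 : Finset ℝ} {x : ℝ}, (∀ w ∈ Y, w ≠ 0) →
      (∀ x, x ∈ Y1 ↔ x ∈ Y ∧ 0 < x) → (∀ x, x ∈ Y2 ↔ x ∈ Y ∧ x < 0) →
      (∀ x, x ∈ Z1 ↔ x ∈ Z ∧ 0 < x) → (∀ x, x ∈ Z2 ↔ x ∈ Z ∧ x < 0) → 0 < x →
      T Y Z x ≤ T Y1 Z1 x + T Y2 Z2 x := by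
    intro Y Y1 Y2 Z Z1 Z2 x h0 h1 h2 h3 h4 hx
    refine split (sg h0 h1 h2) (fun y hy z hz h => (h3 z).2 ⟨hz, ?_⟩)
      (fun y hy z hz h => (h4 z).2 ⟨hz, ?_⟩)
    · have h5 : 0 < x * y := mul_pos hx ((h1 y).1 hy).2
      exact posr (by rw [mul_comm, h]; exact zero_lt_one) h5.le
    · have h5 : x * y < 0 := mul_neg_of_pos_of_neg hx ((h2 y).1 hy).2
      by_contra h6
      have := mul_nonpos_of_nonpos_of_nonneg h5.le (not_lt.1 h6)
      linarith
  have sn : ∀ {Y Y1 Y2 Z Z1 Z2 : Finset ℝ} {x : ℝ}, (∀ w ∈ Y, w ≠ 0) →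
      (∀ x, x ∈ Y1 ↔ x ∈ Y ∧ 0 < x) → (∀ x, x ∈ Y2 ↔ x ∈ Y ∧ x < 0) →
      (∀ x, x ∈ Z1 ↔ x ∈ Z ∧ 0 < x) → (∀ x, x ∈ Z2 ↔ x ∈ Z ∧ x < 0) → x < 0 →
      T Y Z x ≤ T Y1 Z2 x + T Y2 Z1 x := by
    intro Y Y1 Y2 Z Z1 Z2 x h0 h1 h2 h3 h4 hx
    refine split (sg h0 h1 h2) (fun y hy z hz h => (h4 z).2 ⟨hz, ?_⟩)
      (fun y hy z hz h => (h3 z).2 ⟨hz, ?_⟩)
    · have h5 : x * y < 0 := mul_neg_of_neg_of_pos hx ((h1 y).1 hy).2
      by_contra h6
      have := mul_nonpos_of_nonpos_of_nonneg h5.le (not_lt.1 h6)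
      linarith
    · have h5 : 0 < x * y := mul_pos_of_neg_of_neg hx ((h2 y).1 hy).2
      exact posr (by rw [mul_comm, h]; exact zero_lt_one) h5.le
  obtain ⟨a1, ma1, a2, ma2, ea⟩ := extr nA1
  obtain ⟨a3, ma3, a4, ma4, ea'⟩ := extr nA2
  obtain ⟨b1, mb1, b2, mb2, eb⟩ := extr nB1
  obtain ⟨b3, mb3, b4, mb4, eb'⟩ := extr nB2
  obtain ⟨c1, mc1, c2, mc2, ec⟩ := extr nC1
  obtain ⟨c3, mc3, c4, mc4, ec'⟩ := extr nC2
  have t1 := six (pp eA1) (pp eB1) (pp eC1) ma1 ma2 mb1 mb2 mc1 mc2 ea eb ec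
  have t2 := six (pp eA1) (nn eB2) (nn eC2) ma1 ma2 mb3 mb4 mc3 mc4 ea eb' ec'
  have t3 := six (nn eA2) (pp eB1) (nn eC2) ma3 ma4 mb1 mb2 mc3 mc4 ea' eb ec'
  have t4 := six (nn eA2) (nn eB2) (pp eC1) ma3 ma4 mb3 mb4 mc1 mc2 ea' eb' ec
  have u1 := hA.2.2 a1 ((eA1 _).1 ma1).1
  have u2 := hA.2.2 a2 ((eA1 _).1 ma2).1
  have u3 := hA.2.2 a3 ((eA2 _).1 ma3).1
  have u4 := hA.2.2 a4 ((eA2 _).1 ma4).1
  have v1 := hB.2.2 b1 ((eB1 _).1 mb1).1
  have v2 := hB.2.2 b2 ((eB1 _).1 mb2).1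
  have v3 := hB.2.2 b3 ((eB2 _).1 mb3).1
  have v4 := hB.2.2 b4 ((eB2 _).1 mb4).1
  have w1 := hC.2.2 c1 ((eC1 _).1 mc1).1
  have w2 := hC.2.2 c2 ((eC1 _).1 mc2).1
  have w3 := hC.2.2 c3 ((eC2 _).1 mc3).1
  have w4 := hC.2.2 c4 ((eC2 _).1 mc4).1
  have d1 := sp hB.2.1 eB1 eB2 eC1 eC2 ((eA1 _).1 ma1).2
  have d2 := sp hB.2.1 eB1 eB2 eC1 eC2 ((eA1 _).1 ma2).2
  have d3 := sn hB.2.1 eB1 eB2 eC1 eC2 ((eA2 _).1 ma3).2
  have d4 := sn hB.2.1 eB1 eB2 eC1 eC2 ((eA2 _).1 ma4).2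
  have e1 := sp hC.2.1 eC1 eC2 eA1 eA2 ((eB1 _).1 mb1).2
  have e2 := sp hC.2.1 eC1 eC2 eA1 eA2 ((eB1 _).1 mb2).2
  have e3 := sn hC.2.1 eC1 eC2 eA1 eA2 ((eB2 _).1 mb3).2
  have e4 := sn hC.2.1 eC1 eC2 eA1 eA2 ((eB2 _).1 mb4).2
  have f1 := sp hA.2.1 eA1 eA2 eB1 eB2 ((eC1 _).1 mc1).2
  have f2 := sp hA.2.1 eA1 eA2 eB1 eB2 ((eC1 _).1 mc2).2
  have f3 := sn hA.2.1 eA1 eA2 eB1 eB2 ((eC2 _).1 mc3).2
  have f4 := sn hA.2.1 eA1 eA2 eB1 eB2 ((eC2 _).1 mc4).2
  linarith

/-- The combinatorial core. -/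
private lemma comb {A B C : Finset ℝ} {m e e' e'' : ℕ} (hA : Hyp A B C m e)
    (hB : Hyp B C A m e') (hC : Hyp C A B m e'') (he : e ≤ 1) (he' : e' ≤ 1) (he'' : e'' ≤ 1) :
    3 * (A.card + B.card + C.card) + 2 * (e + e' + e'') ≤ 6 * m + 6 := by
  classical
  by_cases sA : ∀ a ∈ A, ∀ a' ∈ A, 0 < a * a'
  · have := one hA hB hC he'' sA
    omega
  by_cases sB : ∀ a ∈ B, ∀ a' ∈ B, 0 < a * a'
  · have := one hB hC hA he sB
    omega
  by_cases sC : ∀ a ∈ C, ∀ a' ∈ C, 0 < a * a'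
  · have := one hC hA hB he' sC
    omega
  have key : ∀ {W : Finset ℝ}, (∀ w ∈ W, w ≠ 0) → (¬ ∀ a ∈ W, ∀ a' ∈ W, 0 < a * a') →
      (W.filter fun x => 0 < x).Nonempty ∧ (W.filter fun x => x < 0).Nonempty := by
    intro W h0 h
    push Not at h
    obtain ⟨a, ha, a', ha', h1⟩ := h
    have h2 : a * a' < 0 := lt_of_le_of_ne h1 (mul_ne_zero (h0 a ha) (h0 a' ha'))
    rcases mul_neg_iff.1 h2 with h3 | h3
    · exact ⟨⟨a, Finset.mem_filter.2 ⟨ha, h3.1⟩⟩, ⟨a', Finset.mem_filter.2 ⟨ha', h3.2⟩⟩⟩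
    · exact ⟨⟨a', Finset.mem_filter.2 ⟨ha', h3.2⟩⟩, ⟨a, Finset.mem_filter.2 ⟨ha, h3.1⟩⟩⟩
  obtain ⟨nA1, nA2⟩ := key hA.2.1 sA
  obtain ⟨nB1, nB2⟩ := key hB.2.1 sB
  obtain ⟨nC1, nC2⟩ := key hC.2.1 sC
  exact all hA hB hC (fun _ => Finset.mem_filter) (fun _ => Finset.mem_filter)
    (fun _ => Finset.mem_filter) (fun _ => Finset.mem_filter) (fun _ => Finset.mem_filter)
    (fun _ => Finset.mem_filter) nA1 nA2 nB1 nB2 nC1 nC2

/-! ### Lines as vectors -/

/-- The line `u x + v y + w = 0` is represented by `(u, v, w)`, the point `(x, y)` by `(x, y, 1)`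
and the direction of `(x, y)` by `(x, y, 0)`. -/
private abbrev Vec := ℝ × ℝ × ℝ

private def dot (N P : Vec) : ℝ := N.1 * P.1 + N.2.1 * P.2.1 + N.2.2 * P.2.2

private def cr (N M : Vec) : Vec :=
  (N.2.1 * M.2.2 - N.2.2 * M.2.1, N.2.2 * M.1 - N.1 * M.2.2, N.1 * M.2.1 - N.2.1 * M.1)

private def dt (N M K : Vec) : ℝ := dot N (cr M K)

private lemma cr_zero {N M : Vec} (h1 : N.2.1 * M.2.2 - N.2.2 * M.2.1 = 0)
    (h2 : N.2.2 * M.1 - N.1 * M.2.2 = 0) (h3 : N.1 * M.2.1 - N.2.1 * M.1 = 0) : cr N M = 0 := by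
  unfold cr
  rw [h1, h2, h3]
  rfl

private lemma cr_comps {N M : Vec} (h : cr N M = 0) : N.2.1 * M.2.2 - N.2.2 * M.2.1 = 0 ∧
    N.2.2 * M.1 - N.1 * M.2.2 = 0 ∧ N.1 * M.2.1 - N.2.1 * M.1 = 0 :=
  ⟨congrArg Prod.fst h, congrArg (fun x : Vec => x.2.1) h, congrArg (fun x : Vec => x.2.2) h⟩

private lemma dt_cyc (N M K : Vec) : dt N M K = dt M K N := by
  unfold dt dot cr; ring

/-- Two lines through `P` which meet on a line not through `P` are equal. -/
private lemma par_of {N N' M P : Vec} (h1 : dot N P = 0) (h2 : dot N' P = 0) (hM : dot M P ≠ 0)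
    (h : dt M N N' = 0) : cr N N' = 0 := by
  obtain ⟨a, b, c⟩ := N
  obtain ⟨a', b', c'⟩ := N'
  obtain ⟨x, y, z⟩ := M
  obtain ⟨p, q, r⟩ := P
  simp only [dot, dt, cr] at h1 h2 hM h
  apply cr_zero <;> refine (mul_eq_zero.1 ?_).resolve_right hM <;> simp only
  · linear_combination p * h + y * (c' * h1 - c * h2) - z * (b' * h1 - b * h2)
  · linear_combination q * h + z * (a' * h1 - a * h2) - x * (c' * h1 - c * h2)
  · linear_combination r * h + x * (b' * h1 - b * h2) - y * (a' * h1 - a * h2)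

/-- The product of two determinants. -/
private lemma dt_mul (N M K P Q R : Vec) : dt N M K * dt P Q R =
    dot N P * (dot M Q * dot K R - dot M R * dot K Q) +
      dot N Q * (dot M R * dot K P - dot M P * dot K R) +
      dot N R * (dot M P * dot K Q - dot M Q * dot K P) := by
  unfold dt dot cr; ring

private lemma cr_of {N N' P Q R : Vec} (hD : dt P Q R ≠ 0)
    (h1 : dot N Q * dot N' R - dot N R * dot N' Q = 0)
    (h2 : dot N R * dot N' P - dot N P * dot N' R = 0)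
    (h3 : dot N P * dot N' Q - dot N Q * dot N' P = 0) : cr N N' = 0 := by
  obtain ⟨a, b, c⟩ := N
  obtain ⟨a', b', c'⟩ := N'
  obtain ⟨p, q, r⟩ := P
  obtain ⟨x, y, z⟩ := Q
  obtain ⟨u, v, w⟩ := R
  simp only [dot, dt, cr] at h1 h2 h3 hD
  apply cr_zero <;> refine (mul_eq_zero.1 ?_).resolve_right hD <;> simp only
  · linear_combination p * h1 + x * h2 + u * h3
  · linear_combination q * h1 + y * h2 + v * h3
  · linear_combination r * h1 + z * h2 + w * h3

private lemma inj_of {N N' P Q R : Vec} (hD : dt P Q R ≠ 0) (h1 : dot N P = 0)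
    (h2 : dot N' P = 0) (h3 : dot N Q ≠ 0) (h4 : dot N' Q ≠ 0)
    (h : dot N R / dot N Q = dot N' R / dot N' Q) : cr N N' = 0 := by
  rw [div_eq_div_iff h3 h4] at h
  refine cr_of hD ?_ ?_ ?_
  · linear_combination -h
  · rw [h1, h2]; ring
  · rw [h1, h2]; ring

private lemma dt_cr_pos {P Q : Vec} (h : cr P Q ≠ 0) : dt P Q (cr P Q) ≠ 0 := by
  intro h0
  apply h
  have h1 : dt P Q (cr P Q) = (cr P Q).1 * (cr P Q).1 + (cr P Q).2.1 * (cr P Q).2.1 +
      (cr P Q).2.2 * (cr P Q).2.2 := by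
    unfold dt dot cr; ring
  rw [h1] at h0
  have a1 := mul_self_nonneg (cr P Q).1
  have a2 := mul_self_nonneg (cr P Q).2.1
  have a3 := mul_self_nonneg (cr P Q).2.2
  refine Prod.ext ?_ (Prod.ext ?_ ?_)
  · exact mul_self_eq_zero.1 (by linarith)
  · exact mul_self_eq_zero.1 (by linarith)
  · exact mul_self_eq_zero.1 (by linarith)

/-- Two lines through two points are equal. -/
private lemma two_pts {N N' P Q : Vec} (h : cr P Q ≠ 0) (h1 : dot N P = 0) (h2 : dot N Q = 0)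
    (h3 : dot N' P = 0) (h4 : dot N' Q = 0) : cr N N' = 0 := by
  refine cr_of (dt_cr_pos h) ?_ ?_ ?_
  · rw [h2, h4]; ring
  · rw [h1, h3]; ring
  · rw [h1, h3]; ring

open scoped Classical in
/-- The common point of two lines, `none` if they are parallel. -/
private noncomputable def X (N M : Vec) : Option (ℝ × ℝ) :=
  if N.1 * M.2.1 - N.2.1 * M.1 = 0 then none else
    some ((N.2.1 * M.2.2 - N.2.2 * M.2.1) / (N.1 * M.2.1 - N.2.1 * M.1),
      (N.2.2 * M.1 - N.1 * M.2.2) / (N.1 * M.2.1 - N.2.1 * M.1))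

private lemma X_some {N M : Vec} {p : ℝ × ℝ} (h : X N M = some p) :
    N.1 * M.2.1 - N.2.1 * M.1 ≠ 0 ∧ N.1 * p.1 + N.2.1 * p.2 + N.2.2 = 0 ∧
      M.1 * p.1 + M.2.1 * p.2 + M.2.2 = 0 := by
  unfold X at h
  split_ifs at h with h1
  rw [Option.some.injEq] at h
  subst h
  set D := N.1 * M.2.1 - N.2.1 * M.1 with hD
  have hA : (N.2.1 * M.2.2 - N.2.2 * M.2.1) / D * D = N.2.1 * M.2.2 - N.2.2 * M.2.1 :=
    div_mul_cancel₀ _ h1
  have hB : (N.2.2 * M.1 - N.1 * M.2.2) / D * D = N.2.2 * M.1 - N.1 * M.2.2 :=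
    div_mul_cancel₀ _ h1
  refine ⟨h1, ?_, ?_⟩
  · refine (mul_eq_zero.1 ?_).resolve_right h1
    linear_combination N.1 * hA + N.2.1 * hB + N.2.2 * hD
  · refine (mul_eq_zero.1 ?_).resolve_right h1
    linear_combination M.1 * hA + M.2.1 * hB + M.2.2 * hD

private lemma X_eq {N M : Vec} {p : ℝ × ℝ} (h : N.1 * M.2.1 - N.2.1 * M.1 ≠ 0)
    (h1 : N.1 * p.1 + N.2.1 * p.2 + N.2.2 = 0) (h2 : M.1 * p.1 + M.2.1 * p.2 + M.2.2 = 0) :
    X N M = some p := by
  unfold X
  rw [if_neg h, Option.some.injEq]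
  refine Prod.ext ?_ ?_
  · rw [div_eq_iff h]
    linear_combination N.2.1 * h2 - M.2.1 * h1
  · rw [div_eq_iff h]
    linear_combination M.1 * h1 - N.1 * h2

private lemma X_none {N M : Vec} (h : X N M = none) : N.1 * M.2.1 - N.2.1 * M.1 = 0 := by
  unfold X at h
  split_ifs at h with h1
  exact h1

private lemma X_det {N M K : Vec} (hN : N.1 ≠ 0 ∨ N.2.1 ≠ 0) (h : X N M = X N K) :
    dt N M K = 0 := by
  obtain ⟨a, b, c⟩ := N
  obtain ⟨x, y, z⟩ := M
  obtain ⟨u, v, w⟩ := K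
  cases hX : X (a, b, c) (x, y, z) with
  | none =>
    rw [hX] at h
    have h1 := X_none hX
    have h2 := X_none h.symm
    simp only at h1 h2 hN
    have h3 : x * v - y * u = 0 := by
      rcases hN with h0 | h0
      · refine (mul_eq_zero.1 ?_).resolve_left h0
        linear_combination x * h2 - u * h1
      · refine (mul_eq_zero.1 ?_).resolve_left h0
        linear_combination y * h2 - v * h1
    simp only [dt, dot, cr]
    linear_combination c * h3 - z * h2 + w * h1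
  | some p =>
    rw [hX] at h
    obtain ⟨h0, h1, h2⟩ := X_some hX
    obtain ⟨-, -, h3⟩ := X_some h.symm
    simp only at h0 h1 h2 h3
    simp only [dt, dot, cr]
    linear_combination (x * v - y * u) * h1 - (a * v - b * u) * h2 + (a * y - b * x) * h3

/-! ### Three pencils -/

/-- The intersection points on the line `a` of the first pencil. -/
private lemma count {L B B' C : Finset Vec} {n : ℕ} {a a' P Q R : Vec} {g h : Vec → ℝ} {x : ℝ}
    (hsep : ∀ N ∈ L, ∀ N' ∈ L, cr N N' = 0 → N = N')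
    (hr : ((L.erase a).image (X a)).card ≤ n + 1) (hBL : ∀ b ∈ B', b ∈ L) (hCL : ∀ c ∈ C, c ∈ L)
    (haL : a ∈ L) (ha'L : a' ∈ L) (haa : a' ≠ a) (h0 : a.1 ≠ 0 ∨ a.2.1 ≠ 0)
    (aP : dot a P = 0) (a'P : dot a' P = 0) (aQ : dot a Q ≠ 0) (aR : dot a R ≠ 0)
    (BP : ∀ b ∈ B', dot b P ≠ 0) (CP : ∀ c ∈ C, dot c P ≠ 0) (BQ : ∀ b ∈ B', dot b Q = 0)
    (CR : ∀ c ∈ C, dot c R = 0) (gi : ∀ b ∈ B, ∀ b' ∈ B, g b = g b' → b = b')
    (hx : ∀ b ∈ B', ∀ c ∈ C, dt a b c = 0 → b ∈ B ∧ x * g b * h c = 1) :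
    B'.card + C.card ≤ n + T (B.image g) (C.image h) x := by
  classical
  have iB : (B'.image (X a)).card = B'.card := Finset.card_image_of_injOn fun b hb b' hb' e =>
    hsep b (hBL b hb) b' (hBL b' hb') (par_of (BQ b hb) (BQ b' hb') aQ (X_det h0 e))
  have iC : (C.image (X a)).card = C.card := Finset.card_image_of_injOn fun b hb b' hb' e =>
    hsep b (hCL b hb) b' (hCL b' hb') (par_of (CR b hb) (CR b' hb') aR (X_det h0 e))
  have aux : ∀ b ∈ L, dot b P ≠ 0 → X a a' ≠ X a b ∧ b ≠ a := by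
    intro b hb hbP
    refine ⟨fun e => haa ?_, fun e => hbP (by rw [e]; exact aP)⟩
    have h1 := X_det h0 e
    rw [dt_cyc, dt_cyc] at h1
    exact (hsep a haL a' ha'L (par_of aP a'P hbP h1)).symm
  have hU : (B'.image (X a) ∪ C.image (X a)).card + 1 ≤ n + 1 := by
    have h1 : X a a' ∉ B'.image (X a) ∪ C.image (X a) := by
      rw [Finset.mem_union, Finset.mem_image, Finset.mem_image]
      rintro (⟨b, hb, e⟩ | ⟨b, hb, e⟩)
      · exact (aux b (hBL b hb) (BP b hb)).1 e.symm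
      · exact (aux b (hCL b hb) (CP b hb)).1 e.symm
    rw [← Finset.card_insert_of_notMem h1]
    refine (Finset.card_le_card ?_).trans hr
    intro p hp
    rw [Finset.mem_insert, Finset.mem_union, Finset.mem_image, Finset.mem_image] at hp
    rw [Finset.mem_image]
    rcases hp with rfl | ⟨b, hb, e⟩ | ⟨b, hb, e⟩
    · exact ⟨a', Finset.mem_erase.2 ⟨haa, ha'L⟩, rfl⟩
    · exact ⟨b, Finset.mem_erase.2 ⟨(aux b (hBL b hb) (BP b hb)).2, hBL b hb⟩, e⟩
    · exact ⟨b, Finset.mem_erase.2 ⟨(aux b (hCL b hb) (CP b hb)).2, hCL b hb⟩, e⟩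
  have hI : (B'.image (X a) ∩ C.image (X a)).card ≤ T (B.image g) (C.image h) x := by
    have h1 : B'.image (X a) ∩ C.image (X a) ⊆
        (B.filter fun b => ∃ c ∈ C, x * g b * h c = 1).image (X a) := by
      intro p hp
      rw [Finset.mem_inter, Finset.mem_image, Finset.mem_image] at hp
      obtain ⟨⟨b, hb, e⟩, ⟨c, hc, e'⟩⟩ := hp
      rw [Finset.mem_image]
      obtain ⟨hbB, h1⟩ := hx b hb c hc (X_det h0 (e.trans e'.symm))
      exact ⟨b, Finset.mem_filter.2 ⟨hbB, c, hc, h1⟩, e⟩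
    refine (Finset.card_le_card h1).trans (Finset.card_image_le.trans ?_)
    unfold T
    refine Finset.card_le_card_of_injOn g ?_ ?_
    · intro b hb
      rw [Finset.mem_coe, Finset.mem_filter] at hb
      obtain ⟨hb, c, hc, e⟩ := hb
      rw [Finset.mem_coe, Finset.mem_filter]
      exact ⟨Finset.mem_image_of_mem g hb, h c, Finset.mem_image_of_mem h hc, e⟩
    · intro b hb b' hb' e
      rw [Finset.mem_coe, Finset.mem_filter] at hb hb'
      exact gi b hb.1 b' hb'.1 e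
  have h2 := Finset.card_union_add_card_inter (B'.image (X a)) (C.image (X a))
  omega

/-- Two lines through `R` which meet on a line `a` not through `R` are equal; hence the side `QR`
does not meet the lines through `R` on `a`. -/
private lemma no_meet {L : Finset Vec} {a b c Q R : Vec}
    (hsep : ∀ N ∈ L, ∀ N' ∈ L, cr N N' = 0 → N = N') (hb : b ∈ L) (hc : c ∈ L)
    (aR : dot a R ≠ 0) (bR : dot b R = 0) (cR : dot c R = 0) (bQ : dot b Q = 0)
    (cQ : dot c Q ≠ 0) : dt a b c ≠ 0 := by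
  intro h
  have := hsep b hb c hc (par_of bR cR aR h)
  rw [this] at bQ
  exact cQ bQ

private lemma hyp_of {L A B C S : Finset Vec} {n : ℕ} {P Q R : Vec} {f g h : Vec → ℝ}
    (h0 : ∀ N ∈ L, N.1 ≠ 0 ∨ N.2.1 ≠ 0) (hsep : ∀ N ∈ L, ∀ N' ∈ L, cr N N' = 0 → N = N')
    (hr : ∀ a ∈ L, ((L.erase a).image (X a)).card ≤ n + 1)
    (hA : ∀ N ∈ A, N ∈ L ∧ dot N P = 0 ∧ dot N Q ≠ 0 ∧ dot N R ≠ 0)
    (hB : ∀ N ∈ B, N ∈ L ∧ dot N Q = 0 ∧ dot N R ≠ 0 ∧ dot N P ≠ 0)
    (hC : ∀ N ∈ C, N ∈ L ∧ dot N R = 0 ∧ dot N P ≠ 0 ∧ dot N Q ≠ 0)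
    (hS : ∀ N ∈ S, N ∈ L ∧ dot N P ≠ 0 ∧ dot N Q = 0 ∧ dot N R = 0)
    (gi : ∀ N ∈ B, ∀ N' ∈ B, g N = g N' → N = N')
    (hi : ∀ N ∈ C, ∀ N' ∈ C, h N = h N' → N = N') (fn : ∀ N ∈ A, f N ≠ 0)
    (hx : ∀ a ∈ A, ∀ b ∈ B, ∀ c ∈ C, dt a b c = 0 → f a * g b * h c = 1)
    (mA : 2 ≤ A.card) : Hyp (A.image f) (B.image g) (C.image h) n S.card := by
  classical
  have cB : (B.image g).card = B.card :=
    Finset.card_image_of_injOn fun a ha b hb e => gi a ha b hb e
  have cC : (C.image h).card = C.card :=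
    Finset.card_image_of_injOn fun a ha b hb e => hi a ha b hb e
  have hne : A.Nonempty := Finset.card_pos.1 (by omega)
  refine ⟨hne.image f, fun a ha => ?_, fun a ha => ?_⟩
  · obtain ⟨N, hN, rfl⟩ := Finset.mem_image.1 ha
    exact fn N hN
  · obtain ⟨N, hN, rfl⟩ := Finset.mem_image.1 ha
    obtain ⟨N', hN', hne⟩ := Finset.exists_mem_ne (show 1 < A.card by omega) N
    rw [cB, cC]
    have hBS : (B ∪ S).card = B.card + S.card := by
      rw [Finset.card_union_of_disjoint]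
      rw [Finset.disjoint_left]
      intro b hb hb'
      exact (hB b hb).2.2.1 (hS b hb').2.2.2
    have key := count (B := B) (B' := B ∪ S) (C := C) (P := P) (Q := Q) (R := R) (g := g) (h := h)
      (x := f N) hsep (hr N (hA N hN).1)
      (fun b hb => (Finset.mem_union.1 hb).elim (fun k => (hB b k).1) (fun k => (hS b k).1))
      (fun b hb => (hC b hb).1) (hA N hN).1 (hA N' hN').1 hne (h0 N (hA N hN).1) (hA N hN).2.1
      (hA N' hN').2.1 (hA N hN).2.2.1 (hA N hN).2.2.2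
      (fun b hb => (Finset.mem_union.1 hb).elim (fun k => (hB b k).2.2.2) (fun k => (hS b k).2.1))
      (fun b hb => (hC b hb).2.2.1)
      (fun b hb => (Finset.mem_union.1 hb).elim (fun k => (hB b k).2.1)
        (fun k => (hS b k).2.2.1))
      (fun b hb => (hC b hb).2.1) gi
      (fun b hb c hc e => by
        rcases Finset.mem_union.1 hb with k | k
        · exact ⟨k, hx N hN b k c hc e⟩
        · exact absurd e (no_meet hsep (hS b k).1 (hC c hc).1 (hA N hN).2.2.2 (hS b k).2.2.2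
            (hC c hc).2.1 (hS b k).2.2.1 (hC c hc).2.2.2))
    omega

private lemma red {L A B C S S' S'' : Finset Vec} {n : ℕ} {P Q R : Vec} {f g h : Vec → ℝ}
    (h0 : ∀ N ∈ L, N.1 ≠ 0 ∨ N.2.1 ≠ 0) (hsep : ∀ N ∈ L, ∀ N' ∈ L, cr N N' = 0 → N = N')
    (hr : ∀ a ∈ L, ((L.erase a).image (X a)).card ≤ n + 1)
    (hA : ∀ N ∈ A, N ∈ L ∧ dot N P = 0 ∧ dot N Q ≠ 0 ∧ dot N R ≠ 0)
    (hB : ∀ N ∈ B, N ∈ L ∧ dot N Q = 0 ∧ dot N R ≠ 0 ∧ dot N P ≠ 0)
    (hC : ∀ N ∈ C, N ∈ L ∧ dot N R = 0 ∧ dot N P ≠ 0 ∧ dot N Q ≠ 0)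
    (hS : ∀ N ∈ S, N ∈ L ∧ dot N P ≠ 0 ∧ dot N Q = 0 ∧ dot N R = 0)
    (hS' : ∀ N ∈ S', N ∈ L ∧ dot N Q ≠ 0 ∧ dot N R = 0 ∧ dot N P = 0)
    (hS'' : ∀ N ∈ S'', N ∈ L ∧ dot N R ≠ 0 ∧ dot N P = 0 ∧ dot N Q = 0)
    (fi : ∀ N ∈ A, ∀ N' ∈ A, f N = f N' → N = N') (gi : ∀ N ∈ B, ∀ N' ∈ B, g N = g N' → N = N')
    (hi : ∀ N ∈ C, ∀ N' ∈ C, h N = h N' → N = N') (fn : ∀ N ∈ A, f N ≠ 0)
    (gn : ∀ N ∈ B, g N ≠ 0) (hn : ∀ N ∈ C, h N ≠ 0)
    (hx : ∀ a ∈ A, ∀ b ∈ B, ∀ c ∈ C, dt a b c = 0 → f a * g b * h c = 1)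
    (mA : 2 ≤ A.card) (mB : 2 ≤ B.card) (mC : 2 ≤ C.card) (sA : S.card ≤ 1) (sB : S'.card ≤ 1)
    (sC : S''.card ≤ 1) :
    3 * (A.card + B.card + C.card) + 2 * (S.card + S'.card + S''.card) ≤ 6 * n + 6 := by
  classical
  have cA : (A.image f).card = A.card :=
    Finset.card_image_of_injOn fun a ha b hb e => fi a ha b hb e
  have cB : (B.image g).card = B.card :=
    Finset.card_image_of_injOn fun a ha b hb e => gi a ha b hb e
  have cC : (C.image h).card = C.card :=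
    Finset.card_image_of_injOn fun a ha b hb e => hi a ha b hb e
  have key := comb (A := A.image f) (B := B.image g) (C := C.image h) (m := n)
    (hyp_of (P := P) (Q := Q) (R := R) h0 hsep hr hA hB hC hS gi hi fn hx mA)
    (hyp_of (P := Q) (Q := R) (R := P) h0 hsep hr hB hC hA hS' hi fi gn (fun b hb c hc a ha e => by
      have := hx a ha b hb c hc (by rw [dt_cyc]; exact e)
      linarith) mB)
    (hyp_of (P := R) (Q := P) (R := Q) h0 hsep hr hC hA hB hS'' fi gi hn (fun c hc a ha b hb e => by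
      have := hx a ha b hb c hc (by rw [← dt_cyc]; exact e)
      linarith) mC) sA sB sC
  rw [cA, cB, cC] at key
  exact key

/-- Either the three centres are not collinear, or they are scaled such that `P + Q + R = 0`. -/
private lemma core1 {L A B C S S' S'' : Finset Vec} {n : ℕ} {P Q R : Vec}
    (h0 : ∀ N ∈ L, N.1 ≠ 0 ∨ N.2.1 ≠ 0) (hsep : ∀ N ∈ L, ∀ N' ∈ L, cr N N' = 0 → N = N')
    (hr : ∀ a ∈ L, ((L.erase a).image (X a)).card ≤ n + 1)
    (hA : ∀ N ∈ A, N ∈ L ∧ dot N P = 0 ∧ dot N Q ≠ 0 ∧ dot N R ≠ 0)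
    (hB : ∀ N ∈ B, N ∈ L ∧ dot N Q = 0 ∧ dot N R ≠ 0 ∧ dot N P ≠ 0)
    (hC : ∀ N ∈ C, N ∈ L ∧ dot N R = 0 ∧ dot N P ≠ 0 ∧ dot N Q ≠ 0)
    (hS : ∀ N ∈ S, N ∈ L ∧ dot N P ≠ 0 ∧ dot N Q = 0 ∧ dot N R = 0)
    (hS' : ∀ N ∈ S', N ∈ L ∧ dot N Q ≠ 0 ∧ dot N R = 0 ∧ dot N P = 0)
    (hS'' : ∀ N ∈ S'', N ∈ L ∧ dot N R ≠ 0 ∧ dot N P = 0 ∧ dot N Q = 0)
    (hcase : dt P Q R ≠ 0 ∨ (cr P Q ≠ 0 ∧ P.1 + Q.1 + R.1 = 0 ∧ P.2.1 + Q.2.1 + R.2.1 = 0 ∧
      P.2.2 + Q.2.2 + R.2.2 = 0))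
    (mA : 2 ≤ A.card) (mB : 2 ≤ B.card) (mC : 2 ≤ C.card) (sA : S.card ≤ 1) (sB : S'.card ≤ 1)
    (sC : S''.card ≤ 1) :
    3 * (A.card + B.card + C.card) + 2 * (S.card + S'.card + S''.card) ≤ 6 * n + 6 := by
  rcases hcase with hD | ⟨hPQ, e1, e2, e3⟩
  · have hD2 : dt Q R P ≠ 0 := by rw [← dt_cyc]; exact hD
    have hD3 : dt R P Q ≠ 0 := by rw [dt_cyc]; exact hD
    refine red (P := P) (Q := Q) (R := R) (f := fun N => -(dot N R / dot N Q))
      (g := fun N => -(dot N P / dot N R)) (h := fun N => -(dot N Q / dot N P)) h0 hsep hr hA hB hC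
      hS hS' hS'' ?_ ?_ ?_ ?_ ?_ ?_ ?_ mA mB mC sA sB sC
    · intro N hN N' hN' e
      exact hsep N (hA N hN).1 N' (hA N' hN').1 (inj_of hD (hA N hN).2.1 (hA N' hN').2.1
        (hA N hN).2.2.1 (hA N' hN').2.2.1 (neg_injective e))
    · intro N hN N' hN' e
      exact hsep N (hB N hN).1 N' (hB N' hN').1 (inj_of hD2 (hB N hN).2.1 (hB N' hN').2.1
        (hB N hN).2.2.1 (hB N' hN').2.2.1 (neg_injective e))
    · intro N hN N' hN' e
      exact hsep N (hC N hN).1 N' (hC N' hN').1 (inj_of hD3 (hC N hN).2.1 (hC N' hN').2.1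
        (hC N hN).2.2.1 (hC N' hN').2.2.1 (neg_injective e))
    · intro N hN
      exact neg_ne_zero.2 (div_ne_zero (hA N hN).2.2.2 (hA N hN).2.2.1)
    · intro N hN
      exact neg_ne_zero.2 (div_ne_zero (hB N hN).2.2.2 (hB N hN).2.2.1)
    · intro N hN
      exact neg_ne_zero.2 (div_ne_zero (hC N hN).2.2.2 (hC N hN).2.2.1)
    · intro a ha b hb c hc e
      have h1 := dt_mul a b c P Q R
      rw [e, (hA a ha).2.1, (hB b hb).2.1, (hC c hc).2.1] at h1
      have aQ := (hA a ha).2.2.1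
      have bR := (hB b hb).2.2.1
      have cP := (hC c hc).2.2.1
      show -(dot a R / dot a Q) * -(dot b P / dot b R) * -(dot c Q / dot c P) = 1
      have h2 : -(dot a R / dot a Q) * -(dot b P / dot b R) * -(dot c Q / dot c P) =
          -(dot a R * dot b P * dot c Q) / (dot a Q * dot b R * dot c P) := by
        field_simp
      rw [h2, div_eq_one_iff_eq (mul_ne_zero (mul_ne_zero aQ bR) cP)]
      linarith
  · have hW := dt_cr_pos hPQ
    set W := cr P Q with hWdef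
    have hW2 : dt Q R W ≠ 0 := by
      have : dt Q R W = dt P Q W := by
        have r1 : R.1 = -P.1 - Q.1 := by linarith
        have r2 : R.2.1 = -P.2.1 - Q.2.1 := by linarith
        have r3 : R.2.2 = -P.2.2 - Q.2.2 := by linarith
        unfold dt dot cr
        rw [r1, r2, r3]
        ring
      rw [this]; exact hW
    have hW3 : dt R P W ≠ 0 := by
      have : dt R P W = dt P Q W := by
        have r1 : R.1 = -P.1 - Q.1 := by linarith
        have r2 : R.2.1 = -P.2.1 - Q.2.1 := by linarith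
        have r3 : R.2.2 = -P.2.2 - Q.2.2 := by linarith
        unfold dt dot cr
        rw [r1, r2, r3]
        ring
      rw [this]; exact hW
    have hsum : ∀ N : Vec, dot N P + dot N Q + dot N R = 0 := by
      intro N
      unfold dot
      linear_combination N.1 * e1 + N.2.1 * e2 + N.2.2 * e3
    refine red (P := P) (Q := Q) (R := R) (f := fun N => Real.exp (dot N W / dot N Q))
      (g := fun N => Real.exp (dot N W / dot N R)) (h := fun N => Real.exp (dot N W / dot N P))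
      h0 hsep hr hA hB hC hS hS' hS'' ?_ ?_ ?_ (fun _ _ => (Real.exp_pos _).ne')
      (fun _ _ => (Real.exp_pos _).ne') (fun _ _ => (Real.exp_pos _).ne') ?_ mA mB mC sA sB sC
    · intro N hN N' hN' e
      exact hsep N (hA N hN).1 N' (hA N' hN').1 (inj_of hW (hA N hN).2.1 (hA N' hN').2.1
        (hA N hN).2.2.1 (hA N' hN').2.2.1 (Real.exp_injective e))
    · intro N hN N' hN' e
      exact hsep N (hB N hN).1 N' (hB N' hN').1 (inj_of hW2 (hB N hN).2.1 (hB N' hN').2.1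
        (hB N hN).2.2.1 (hB N' hN').2.2.1 (Real.exp_injective e))
    · intro N hN N' hN' e
      exact hsep N (hC N hN).1 N' (hC N' hN').1 (inj_of hW3 (hC N hN).2.1 (hC N' hN').2.1
        (hC N hN).2.2.1 (hC N' hN').2.2.1 (Real.exp_injective e))
    · intro a ha b hb c hc e
      have h1 := dt_mul a b c P Q W
      rw [e, (hA a ha).2.1, (hB b hb).2.1] at h1
      have s2 := hsum b
      have s3 := hsum c
      rw [(hB b hb).2.1] at s2
      rw [(hC c hc).2.1] at s3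
      have aQ := (hA a ha).2.2.1
      have bR := (hB b hb).2.2.1
      have bP := (hB b hb).2.2.2
      have cP := (hC c hc).2.2.1
      have eR : dot b R = -dot b P := by linarith
      have eQ : dot c Q = -dot c P := by linarith
      rw [eQ] at h1
      show Real.exp (dot a W / dot a Q) * Real.exp (dot b W / dot b R) *
        Real.exp (dot c W / dot c P) = 1
      rw [← Real.exp_add, ← Real.exp_add, Real.exp_eq_one_iff, eR]
      have h2 : dot a W / dot a Q + dot b W / -dot b P + dot c W / dot c P =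
          (dot a W * dot b P * dot c P - dot b W * dot a Q * dot c P +
            dot c W * dot a Q * dot b P) / (dot a Q * dot b P * dot c P) := by
        field_simp
        ring
      rw [h2, div_eq_zero_iff]
      left
      linarith

/-- There is at most one line through two points. -/
private lemma side {L : Finset Vec} {P Q : Vec}
    (hsep : ∀ N ∈ L, ∀ N' ∈ L, cr N N' = 0 → N = N') (hPQ : cr P Q ≠ 0) :
    (L.filter fun N => dot N P = 0 ∧ dot N Q = 0).card ≤ 1 := by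
  rw [Finset.card_le_one]
  intro N hN N' hN'
  rw [Finset.mem_filter] at hN hN'
  exact hsep N hN.1 N' hN'.1 (two_pts hPQ hN.2.1 hN.2.2 hN'.2.1 hN'.2.2)

private lemma cr_symm_ne {P Q : Vec} (h : cr P Q ≠ 0) : cr Q P ≠ 0 := by
  intro h0
  obtain ⟨h1, h2, h3⟩ := cr_comps h0
  exact h (cr_zero (by linarith) (by linarith) (by linarith))

/-- Scaling of three collinear centres. -/
private lemma scale {P Q R : Vec} (hPQ : cr P Q ≠ 0) (hPR : cr P R ≠ 0) (hQR : cr Q R ≠ 0)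
    (hd : dt P Q R = 0) : ∃ P' Q' R' : Vec, (∀ N, dot N P' = 0 ↔ dot N P = 0) ∧
      (∀ N, dot N Q' = 0 ↔ dot N Q = 0) ∧ (∀ N, dot N R' = 0 ↔ dot N R = 0) ∧
      cr P' Q' ≠ 0 ∧ P'.1 + Q'.1 + R'.1 = 0 ∧ P'.2.1 + Q'.2.1 + R'.2.1 = 0 ∧
      P'.2.2 + Q'.2.2 + R'.2.2 = 0 := by
  have sc : ∀ {c : ℝ} {V : Vec}, c ≠ 0 → ∀ N, dot N (c * V.1, c * V.2.1, c * V.2.2) = 0 ↔
      dot N V = 0 := by
    intro c V hc N
    have : dot N (c * V.1, c * V.2.1, c * V.2.2) = c * dot N V := by unfold dot; ring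
    rw [this, mul_eq_zero, or_iff_right hc]
  have hw : dot (cr P Q) (cr P Q) ≠ 0 := by
    have := dt_cr_pos hPQ
    rw [← dt_cyc] at this
    exact this
  have i1 : dot (cr P Q) (cr P Q) * R.1 = dot (cr R Q) (cr P Q) * P.1 +
      dot (cr P R) (cr P Q) * Q.1 + dt P Q R * (cr P Q).1 := by
    unfold dt dot cr; ring
  have i2 : dot (cr P Q) (cr P Q) * R.2.1 = dot (cr R Q) (cr P Q) * P.2.1 +
      dot (cr P R) (cr P Q) * Q.2.1 + dt P Q R * (cr P Q).2.1 := by
    unfold dt dot cr; ring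
  have i3 : dot (cr P Q) (cr P Q) * R.2.2 = dot (cr R Q) (cr P Q) * P.2.2 +
      dot (cr P R) (cr P Q) * Q.2.2 + dt P Q R * (cr P Q).2.2 := by
    unfold dt dot cr; ring
  rw [hd, zero_mul, add_zero] at i1 i2 i3
  set w := dot (cr P Q) (cr P Q) with hwd
  set u := dot (cr R Q) (cr P Q) with hud
  set v := dot (cr P R) (cr P Q) with hvd
  have hu : u ≠ 0 := by
    intro h0
    rw [h0, zero_mul, zero_add] at i1 i2 i3
    refine hQR (cr_zero ?_ ?_ ?_) <;> refine (mul_eq_zero.1 ?_).resolve_left hw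
    · linear_combination Q.2.1 * i3 - Q.2.2 * i2
    · linear_combination Q.2.2 * i1 - Q.1 * i3
    · linear_combination Q.1 * i2 - Q.2.1 * i1
  have hv : v ≠ 0 := by
    intro h0
    rw [h0, zero_mul, add_zero] at i1 i2 i3
    refine hPR (cr_zero ?_ ?_ ?_) <;> refine (mul_eq_zero.1 ?_).resolve_left hw
    · linear_combination P.2.1 * i3 - P.2.2 * i2
    · linear_combination P.2.2 * i1 - P.1 * i3
    · linear_combination P.1 * i2 - P.2.1 * i1
  refine ⟨(u * P.1, u * P.2.1, u * P.2.2), (v * Q.1, v * Q.2.1, v * Q.2.2),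
    (-w * R.1, -w * R.2.1, -w * R.2.2), sc hu, sc hv, sc (neg_ne_zero.2 hw), ?_, ?_, ?_, ?_⟩
  · intro h0
    obtain ⟨h1, h2, h3⟩ := cr_comps h0
    simp only at h1 h2 h3
    refine hPQ (cr_zero ?_ ?_ ?_) <;>
      refine (mul_eq_zero.1 ?_).resolve_left (mul_ne_zero hu hv)
    · linear_combination h1
    · linear_combination h2
    · linear_combination h3
  · show u * P.1 + v * Q.1 + -w * R.1 = 0
    linear_combination -i1
  · show u * P.2.1 + v * Q.2.1 + -w * R.2.1 = 0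
    linear_combination -i2
  · show u * P.2.2 + v * Q.2.2 + -w * R.2.2 = 0
    linear_combination -i3

/-- The eight types of lines. -/
private lemma part (L : Finset Vec) (p q r : Vec → Prop) [DecidablePred p] [DecidablePred q]
    [DecidablePred r] : L.card = (L.filter fun N => p N ∧ ¬ q N ∧ ¬ r N).card +
      (L.filter fun N => q N ∧ ¬ r N ∧ ¬ p N).card + (L.filter fun N => r N ∧ ¬ p N ∧ ¬ q N).card +
      (L.filter fun N => ¬ p N ∧ q N ∧ r N).card + (L.filter fun N => ¬ q N ∧ r N ∧ p N).card +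
      (L.filter fun N => ¬ r N ∧ p N ∧ q N).card + (L.filter fun N => p N ∧ q N ∧ r N).card +
      (L.filter fun N => ¬ p N ∧ ¬ q N ∧ ¬ r N).card := by
  rw [Finset.card_eq_sum_ones]
  simp only [Finset.card_filter, ← Finset.sum_add_distrib]
  refine Finset.sum_congr rfl fun N _ => ?_
  by_cases h1 : p N <;> by_cases h2 : q N <;> by_cases h3 : r N <;> simp [h1, h2, h3]

private lemma part1 (L : Finset Vec) (p q r : Vec → Prop) [DecidablePred p] [DecidablePred q]
    [DecidablePred r] : (L.filter p).card = (L.filter fun N => p N ∧ ¬ q N ∧ ¬ r N).card +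
      (L.filter fun N => ¬ q N ∧ r N ∧ p N).card + (L.filter fun N => ¬ r N ∧ p N ∧ q N).card +
      (L.filter fun N => p N ∧ q N ∧ r N).card := by
  simp only [Finset.card_filter, ← Finset.sum_add_distrib]
  refine Finset.sum_congr rfl fun N _ => ?_
  by_cases h1 : p N <;> by_cases h2 : q N <;> by_cases h3 : r N <;> simp [h1, h2, h3]

private lemma core {L : Finset Vec} {n s : ℕ} {P Q R : Vec}
    (h0 : ∀ N ∈ L, N.1 ≠ 0 ∨ N.2.1 ≠ 0) (hsep : ∀ N ∈ L, ∀ N' ∈ L, cr N N' = 0 → N = N')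
    (hr : ∀ a ∈ L, ((L.erase a).image (X a)).card ≤ n + 1)
    (hPQ : cr P Q ≠ 0) (hPR : cr P R ≠ 0) (hQR : cr Q R ≠ 0)
    (hP : (L.filter fun N => dot N P = 0).card ≤ n + 1)
    (hQ : (L.filter fun N => dot N Q = 0).card ≤ n + 1)
    (hR : (L.filter fun N => dot N R = 0).card ≤ n + 1)
    (hs : (L.filter fun N => ¬ dot N P = 0 ∧ ¬ dot N Q = 0 ∧ ¬ dot N R = 0).card ≤ s) :
    L.card ≤ 2 * n + 3 + s := by
  classical
  have s1 := side hsep hPQ
  have s2 := side hsep hPR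
  have s3 := side hsep hQR
  have pt := part L (fun N => dot N P = 0) (fun N => dot N Q = 0) (fun N => dot N R = 0)
  have pP := part1 L (fun N => dot N P = 0) (fun N => dot N Q = 0) (fun N => dot N R = 0)
  have pQ := part1 L (fun N => dot N Q = 0) (fun N => dot N R = 0) (fun N => dot N P = 0)
  have pR := part1 L (fun N => dot N R = 0) (fun N => dot N P = 0) (fun N => dot N Q = 0)

  have hZ1 : (L.filter fun N => dot N Q = 0 ∧ dot N R = 0 ∧ dot N P = 0) =
      L.filter fun N => dot N P = 0 ∧ dot N Q = 0 ∧ dot N R = 0 :=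
    Finset.filter_congr fun N _ => ⟨fun h => ⟨h.2.2, h.1, h.2.1⟩, fun h => ⟨h.2.1, h.2.2, h.1⟩⟩
  have hZ2 : (L.filter fun N => dot N R = 0 ∧ dot N P = 0 ∧ dot N Q = 0) =
      L.filter fun N => dot N P = 0 ∧ dot N Q = 0 ∧ dot N R = 0 :=
    Finset.filter_congr fun N _ => ⟨fun h => ⟨h.2.1, h.2.2, h.1⟩, fun h => ⟨h.2.2, h.1, h.2.1⟩⟩
  rw [hZ1] at pQ
  rw [hZ2] at pR
  set A := L.filter fun N => dot N P = 0 ∧ ¬ dot N Q = 0 ∧ ¬ dot N R = 0 with hAd
  set B := L.filter fun N => dot N Q = 0 ∧ ¬ dot N R = 0 ∧ ¬ dot N P = 0 with hBd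
  set C := L.filter fun N => dot N R = 0 ∧ ¬ dot N P = 0 ∧ ¬ dot N Q = 0 with hCd
  set S := L.filter fun N => ¬ dot N P = 0 ∧ dot N Q = 0 ∧ dot N R = 0 with hSd
  set S' := L.filter fun N => ¬ dot N Q = 0 ∧ dot N R = 0 ∧ dot N P = 0 with hSd'
  set S'' := L.filter fun N => ¬ dot N R = 0 ∧ dot N P = 0 ∧ dot N Q = 0 with hSd''
  set Z := L.filter fun N => dot N P = 0 ∧ dot N Q = 0 ∧ dot N R = 0 with hZd
  have hA : ∀ N ∈ A, N ∈ L ∧ dot N P = 0 ∧ dot N Q ≠ 0 ∧ dot N R ≠ 0 := fun N hN =>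
    Finset.mem_filter.1 hN
  have hB : ∀ N ∈ B, N ∈ L ∧ dot N Q = 0 ∧ dot N R ≠ 0 ∧ dot N P ≠ 0 := fun N hN =>
    Finset.mem_filter.1 hN
  have hC : ∀ N ∈ C, N ∈ L ∧ dot N R = 0 ∧ dot N P ≠ 0 ∧ dot N Q ≠ 0 := fun N hN =>
    Finset.mem_filter.1 hN
  have hS : ∀ N ∈ S, N ∈ L ∧ dot N P ≠ 0 ∧ dot N Q = 0 ∧ dot N R = 0 := fun N hN =>
    Finset.mem_filter.1 hN
  have hS' : ∀ N ∈ S', N ∈ L ∧ dot N Q ≠ 0 ∧ dot N R = 0 ∧ dot N P = 0 := fun N hN =>
    Finset.mem_filter.1 hN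
  have hS'' : ∀ N ∈ S'', N ∈ L ∧ dot N R ≠ 0 ∧ dot N P = 0 ∧ dot N Q = 0 := fun N hN =>
    Finset.mem_filter.1 hN
  have cS : S.card ≤ 1 := (Finset.card_le_card fun N hN =>
    Finset.mem_filter.2 ⟨(hS N hN).1, (hS N hN).2.2⟩).trans s3
  have cS' : S'.card ≤ 1 := (Finset.card_le_card fun N hN =>
    Finset.mem_filter.2 ⟨(hS' N hN).1, (hS' N hN).2.2.2, (hS' N hN).2.2.1⟩).trans s2
  have cS'' : S''.card ≤ 1 := (Finset.card_le_card fun N hN =>
    Finset.mem_filter.2 ⟨(hS'' N hN).1, (hS'' N hN).2.2⟩).trans s1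
  have cZ : Z.card ≤ 1 := (Finset.card_le_card fun N hN =>
    Finset.mem_filter.2 ⟨(Finset.mem_filter.1 hN).1, (Finset.mem_filter.1 hN).2.1,
      (Finset.mem_filter.1 hN).2.2.1⟩).trans s1
  by_cases hbig : 2 ≤ A.card ∧ 2 ≤ B.card ∧ 2 ≤ C.card
  · obtain ⟨mA, mB, mC⟩ := hbig
    by_cases hD : dt P Q R = 0
    · obtain ⟨P', Q', R', eP, eQ, eR, h1, h2⟩ := scale hPQ hPR hQR hD
      have key := core1 (A := A) (B := B) (C := C) (S := ∅) (S' := ∅) (S'' := ∅) (P := P') (Q := Q')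
        (R := R') h0 hsep hr (fun N hN => by rw [eP, Ne, Ne, eQ, eR]; exact hA N hN)
        (fun N hN => by rw [eQ, Ne, Ne, eR, eP]; exact hB N hN)
        (fun N hN => by rw [eR, Ne, Ne, eP, eQ]; exact hC N hN)
        (fun N hN => absurd hN (Finset.notMem_empty N))
        (fun N hN => absurd hN (Finset.notMem_empty N))
        (fun N hN => absurd hN (Finset.notMem_empty N)) (Or.inr ⟨h1, h2⟩) mA mB mC
        (by simp) (by simp) (by simp)
      have hsum : ∀ N : Vec, dot N P' + dot N Q' + dot N R' = 0 := by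
        intro N
        obtain ⟨e1, e2, e3⟩ := h2
        unfold dot
        linear_combination N.1 * e1 + N.2.1 * e2 + N.2.2 * e3
      have z1 : S.card = 0 := by
        rw [Finset.card_eq_zero, Finset.eq_empty_iff_forall_notMem]
        intro N hN
        obtain ⟨-, k1, k2, k3⟩ := hS N hN
        rw [← eQ] at k2
        rw [← eR] at k3
        exact k1 ((eP N).1 (by have := hsum N; rw [k2, k3] at this; linarith))
      have z2 : S'.card = 0 := by
        rw [Finset.card_eq_zero, Finset.eq_empty_iff_forall_notMem]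
        intro N hN
        obtain ⟨-, k1, k2, k3⟩ := hS' N hN
        rw [← eR] at k2
        rw [← eP] at k3
        exact k1 ((eQ N).1 (by have := hsum N; rw [k2, k3] at this; linarith))
      have z3 : S''.card = 0 := by
        rw [Finset.card_eq_zero, Finset.eq_empty_iff_forall_notMem]
        intro N hN
        obtain ⟨-, k1, k2, k3⟩ := hS'' N hN
        rw [← eP] at k2
        rw [← eQ] at k3
        exact k1 ((eR N).1 (by have := hsum N; rw [k2, k3] at this; linarith))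
      simp only [Finset.card_empty] at key
      omega
    · have key := core1 h0 hsep hr hA hB hC hS hS' hS'' (Or.inl hD) mA mB mC cS cS' cS''
      have z : Z.card = 0 := by
        rw [Finset.card_eq_zero, Finset.eq_empty_iff_forall_notMem]
        intro N hN
        obtain ⟨hNL, k1, k2, k3⟩ := Finset.mem_filter.1 hN
        have i1 : dt P Q R * N.1 = dot N P * (cr Q R).1 + dot N Q * (cr R P).1 +
            dot N R * (cr P Q).1 := by unfold dt dot cr; ring
        have i2 : dt P Q R * N.2.1 = dot N P * (cr Q R).2.1 + dot N Q * (cr R P).2.1 +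
            dot N R * (cr P Q).2.1 := by unfold dt dot cr; ring
        rw [k1, k2, k3, zero_mul, zero_mul, zero_mul, add_zero, add_zero] at i1 i2
        rcases h0 N hNL with h | h
        · exact h ((mul_eq_zero.1 i1).resolve_left hD)
        · exact h ((mul_eq_zero.1 i2).resolve_left hD)
      omega
  · omega

/-! ### Cubic forms -/

/-- The value of the form `F` at the vector `N`. -/
private noncomputable def ev (F : MvPolynomial (Fin 3) ℝ) (N : Vec) : ℝ :=
  MvPolynomial.eval ![N.1, N.2.1, N.2.2] F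

private lemma ev_smul {F : MvPolynomial (Fin 3) ℝ} (hF : F.IsHomogeneous 3) (c : ℝ) (N : Vec) :
    ev F (c * N.1, c * N.2.1, c * N.2.2) = c ^ 3 * ev F N := by
  unfold ev
  rw [MvPolynomial.eval_eq', MvPolynomial.eval_eq', Finset.mul_sum]
  refine Finset.sum_congr rfl fun d hd => ?_
  have hdeg : d 0 + d 1 + d 2 = 3 := by
    have h1 := hF (MvPolynomial.mem_support_iff.1 hd)
    rw [Finsupp.weight_apply, Finsupp.sum_fintype _ _ (by simp), Fin.sum_univ_three] at h1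
    simpa using h1
  rw [Fin.prod_univ_three, Fin.prod_univ_three]
  show MvPolynomial.coeff d F * ((c * N.1) ^ d 0 * (c * N.2.1) ^ d 1 * (c * N.2.2) ^ d 2) =
    c ^ 3 * (MvPolynomial.coeff d F * (N.1 ^ d 0 * N.2.1 ^ d 1 * N.2.2 ^ d 2))
  rw [← hdeg, mul_pow, mul_pow, mul_pow, pow_add, pow_add]
  ring

private lemma ev_line {F : MvPolynomial (Fin 3) ℝ} (hF : F.IsHomogeneous 3) (A B : Vec) :
    ∃ p : Polynomial ℝ, p.natDegree ≤ 3 ∧
      ∀ t, p.eval t = ev F (A.1 + t * B.1, A.2.1 + t * B.2.1, A.2.2 + t * B.2.2) := by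
  refine ⟨MvPolynomial.aeval (fun i : Fin 3 => Polynomial.C ((![A.1, A.2.1, A.2.2] : Fin 3 → ℝ) i) +
    Polynomial.X * Polynomial.C ((![B.1, B.2.1, B.2.2] : Fin 3 → ℝ) i)) F, ?_, fun t => ?_⟩
  · have h := MvPolynomial.aeval_natDegree_le (m := 3) (n := 1) F hF.totalDegree_le
      (fun i : Fin 3 => Polynomial.C ((![A.1, A.2.1, A.2.2] : Fin 3 → ℝ) i) +
        Polynomial.X * Polynomial.C ((![B.1, B.2.1, B.2.2] : Fin 3 → ℝ) i)) (fun i => by
          compute_degree)
    simpa using h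
  · unfold ev
    have h := MvPolynomial.eval₂_comp_left (Polynomial.evalRingHom t)
      (algebraMap ℝ (Polynomial ℝ))
      (fun i : Fin 3 => Polynomial.C ((![A.1, A.2.1, A.2.2] : Fin 3 → ℝ) i) +
        Polynomial.X * Polynomial.C ((![B.1, B.2.1, B.2.2] : Fin 3 → ℝ) i)) F
    rw [MvPolynomial.aeval_def]
    rw [Polynomial.coe_evalRingHom] at h
    rw [h]
    have h1 : (Polynomial.evalRingHom t).comp (algebraMap ℝ (Polynomial ℝ)) = RingHom.id ℝ := by
      ext; simp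
    rw [h1, MvPolynomial.eval₂_id]
    congr 1
    congr 1
    funext i
    fin_cases i <;> simp <;> ring

/-- A cubic form with four zeros on a line vanishes on the line. -/
private lemma four_zeros {F : MvPolynomial (Fin 3) ℝ} (hF : F.IsHomogeneous 3) {A B : Vec}
    {t : Fin 4 → ℝ} (ht : Function.Injective t)
    (h : ∀ i, ev F (A.1 + t i * B.1, A.2.1 + t i * B.2.1, A.2.2 + t i * B.2.2) = 0) (x y : ℝ) :
    ev F (x * A.1 + y * B.1, x * A.2.1 + y * B.2.1, x * A.2.2 + y * B.2.2) = 0 := by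
  have zero : ∀ (p : Polynomial ℝ), p.natDegree ≤ 3 → ∀ t : Fin 4 → ℝ, Function.Injective t →
      (∀ i, p.eval (t i) = 0) → p = 0 := by
    intro p hp t ht h
    refine Polynomial.eq_zero_of_natDegree_lt_card_of_eval_eq_zero p ht h ?_
    rw [Fintype.card_fin]
    omega
  obtain ⟨p, hp, hpe⟩ := ev_line hF A B
  have p0 : p = 0 := zero p hp t ht fun i => by rw [hpe]; exact h i
  have h1 : ∀ t, ev F (A.1 + t * B.1, A.2.1 + t * B.2.1, A.2.2 + t * B.2.2) = 0 := by
    intro t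
    rw [← hpe, p0, Polynomial.eval_zero]
  have h2 : ∀ x y : ℝ, x ≠ 0 →
      ev F (x * A.1 + y * B.1, x * A.2.1 + y * B.2.1, x * A.2.2 + y * B.2.2) = 0 := by
    intro x y hx
    have e : (x * A.1 + y * B.1, x * A.2.1 + y * B.2.1, x * A.2.2 + y * B.2.2) =
        ((x * (A.1 + y / x * B.1), x * (A.2.1 + y / x * B.2.1),
          x * (A.2.2 + y / x * B.2.2)) : Vec) := by
      refine Prod.ext ?_ (Prod.ext ?_ ?_) <;> simp only <;> field_simp
    rw [e]
    have := ev_smul hF x (A.1 + y / x * B.1, A.2.1 + y / x * B.2.1, A.2.2 + y / x * B.2.2)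
    simp only at this
    rw [this, h1, mul_zero]
  by_cases hx : x = 0
  · obtain ⟨q, hq, hqe⟩ := ev_line hF (y * B.1, y * B.2.1, y * B.2.2) A
    have q0 : q = 0 := by
      refine zero q hq (fun i => ((i : ℕ) : ℝ) + 1) ?_ fun i => ?_
      · intro i j hij
        have h3 : ((i : ℕ) : ℝ) + 1 = ((j : ℕ) : ℝ) + 1 := hij
        have h4 : (i : ℕ) = j := by exact_mod_cast add_right_cancel h3
        exact Fin.ext h4
      · rw [hqe]
        have h3 := h2 (((i : ℕ) : ℝ) + 1) y (by positivity)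
        simp only
        rw [add_comm (y * B.1), add_comm (y * B.2.1), add_comm (y * B.2.2)]
        exact h3
    have h3 := hqe 0
    rw [q0, Polynomial.eval_zero] at h3
    simp only [zero_mul, add_zero] at h3
    rw [hx, zero_mul, zero_mul, zero_mul, zero_add, zero_add, zero_add]
    exact h3.symm
  · exact h2 x y hx

/-- `F` vanishes on the whole pencil with centre `P`. -/
private def Cn (F : MvPolynomial (Fin 3) ℝ) (P : Vec) : Prop := ∀ N : Vec, dot N P = 0 → ev F N = 0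

private lemma avoid (W : Finset Vec) (h : ∀ V ∈ W, V ≠ 0) : ∃ M : Vec, ∀ V ∈ W, dot M V ≠ 0 := by
  classical
  let p : Vec → Polynomial ℝ := fun V =>
    Polynomial.C V.1 + Polynomial.C V.2.1 * Polynomial.X + Polynomial.C V.2.2 * Polynomial.X ^ 2
  have hp : ∀ V ∈ W, p V ≠ 0 := by
    intro V hV h0
    apply h V hV
    have c0 := congrArg (fun q => Polynomial.coeff q 0) h0
    have c1 := congrArg (fun q => Polynomial.coeff q 1) h0
    have c2 := congrArg (fun q => Polynomial.coeff q 2) h0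
    simp [p, Polynomial.coeff_C, Polynomial.coeff_X] at c0 c1 c2
    exact Prod.ext c0 (Prod.ext c1 c2)
  have hq : ∏ V ∈ W, p V ≠ 0 := Finset.prod_ne_zero_iff.2 hp
  obtain ⟨x, hx⟩ : ∃ x, (∏ V ∈ W, p V).eval x ≠ 0 := by
    by_contra hcon
    push Not at hcon
    exact hq (Polynomial.funext fun x => by rw [hcon x, Polynomial.eval_zero])
  rw [Polynomial.eval_prod, Finset.prod_ne_zero_iff] at hx
  refine ⟨(1, x, x ^ 2), fun V hV h0 => hx V hV ?_⟩
  simp [p]
  unfold dot at h0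
  simp only at h0
  linarith

/-- A nonzero cubic form vanishes on at most three pencils. -/
private lemma three_pencils {F : MvPolynomial (Fin 3) ℝ} (hF : F.IsHomogeneous 3) (hF0 : F ≠ 0)
    (P : Fin 4 → Vec) (hP : ∀ i j, i ≠ j → cr (P i) (P j) ≠ 0) : ¬ ∀ i, Cn F (P i) := by
  classical
  intro hC
  apply hF0
  apply MvPolynomial.funext
  intro v
  rw [map_zero]
  set N : Vec := (v 0, v 1, v 2) with hN
  have hv : MvPolynomial.eval v F = ev F N := by
    unfold ev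
    congr 1
    congr 1
    funext i
    fin_cases i <;> rfl
  rw [hv]
  by_cases hz : ∃ i, dot N (P i) = 0
  · obtain ⟨i, hi⟩ := hz
    exact hC i N hi
  push Not at hz
  let D : Fin 4 → Fin 4 → Vec := fun i j =>
    (dot N (P i) * (P j).1 - dot N (P j) * (P i).1,
      dot N (P i) * (P j).2.1 - dot N (P j) * (P i).2.1,
      dot N (P i) * (P j).2.2 - dot N (P j) * (P i).2.2)
  have hD : ∀ i j, i ≠ j → D i j ≠ 0 := by
    intro i j hij h0
    have e1 : dot N (P i) * (P j).1 - dot N (P j) * (P i).1 = 0 := congrArg Prod.fst h0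
    have e2 : dot N (P i) * (P j).2.1 - dot N (P j) * (P i).2.1 = 0 :=
      congrArg (fun x : Vec => x.2.1) h0
    have e3 : dot N (P i) * (P j).2.2 - dot N (P j) * (P i).2.2 = 0 :=
      congrArg (fun x : Vec => x.2.2) h0
    refine hP i j hij (cr_zero ?_ ?_ ?_) <;> refine (mul_eq_zero.1 ?_).resolve_left (hz i)
    · linear_combination (P i).2.1 * e3 - (P i).2.2 * e2
    · linear_combination (P i).2.2 * e1 - (P i).1 * e3
    · linear_combination (P i).1 * e2 - (P i).2.1 * e1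
  have hP0 : ∀ i, P i ≠ 0 := by
    intro i h0
    obtain ⟨j, hj⟩ : ∃ j : Fin 4, j ≠ i := exists_ne i
    refine hP i j hj.symm ?_
    rw [h0]
    exact cr_zero (by simp) (by simp) (by simp)
  obtain ⟨M, hM⟩ := avoid ((Finset.univ.image P) ∪
      ((Finset.univ ×ˢ Finset.univ).filter fun ij : Fin 4 × Fin 4 => ij.1 ≠ ij.2).image
        fun ij => D ij.1 ij.2) (by
    intro V hV
    rw [Finset.mem_union, Finset.mem_image, Finset.mem_image] at hV
    rcases hV with ⟨i, -, rfl⟩ | ⟨ij, hij, rfl⟩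
    · exact hP0 i
    · exact hD _ _ (Finset.mem_filter.1 hij).2)
  have m1 : ∀ i, dot M (P i) ≠ 0 := fun i => hM _ (Finset.mem_union_left _
    (Finset.mem_image_of_mem _ (Finset.mem_univ i)))
  have m2 : ∀ i j, i ≠ j → dot M (D i j) ≠ 0 := fun i j hij => hM _ (Finset.mem_union_right _
    (Finset.mem_image.2 ⟨(i, j), Finset.mem_filter.2 ⟨by simp, hij⟩, rfl⟩))
  have key := four_zeros hF (A := N) (B := M) (t := fun i => -(dot N (P i)) / dot M (P i)) ?_ ?_ 1 0
  · simp only [one_mul, zero_mul, add_zero] at key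
    exact key
  · intro i j hij
    by_contra hne
    have h1 : -(dot N (P i)) / dot M (P i) = -(dot N (P j)) / dot M (P j) := hij
    rw [div_eq_div_iff (m1 i) (m1 j)] at h1
    refine m2 i j hne ?_
    have h2 : dot M (D i j) = dot N (P i) * dot M (P j) - dot N (P j) * dot M (P i) := by
      simp only [D, dot]; ring
    rw [h2]
    linarith
  · intro i
    refine hC i _ ?_
    have h1 : -(dot N (P i)) / dot M (P i) * dot M (P i) = -(dot N (P i)) :=
      div_mul_cancel₀ _ (m1 i)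
    have h2 : dot (N.1 + -(dot N (P i)) / dot M (P i) * M.1,
        N.2.1 + -(dot N (P i)) / dot M (P i) * M.2.1,
        N.2.2 + -(dot N (P i)) / dot M (P i) * M.2.2) (P i) =
        dot N (P i) + -(dot N (P i)) / dot M (P i) * dot M (P i) := by
      unfold dot; ring
    rw [h2, h1, add_neg_cancel]

private lemma span2 {A B M : Vec} (h : cr A B ≠ 0) (hM : dot M (cr A B) = 0) :
    ∃ x y : ℝ, M = (x * A.1 + y * B.1, x * A.2.1 + y * B.2.1, x * A.2.2 + y * B.2.2) := by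
  have hw : dot (cr A B) (cr A B) ≠ 0 := by
    have := dt_cr_pos h
    rw [← dt_cyc] at this
    exact this
  have i1 : dot (cr A B) (cr A B) * M.1 = dot (cr M B) (cr A B) * A.1 +
      dot (cr A M) (cr A B) * B.1 + dot M (cr A B) * (cr A B).1 := by
    unfold dot cr; ring
  have i2 : dot (cr A B) (cr A B) * M.2.1 = dot (cr M B) (cr A B) * A.2.1 +
      dot (cr A M) (cr A B) * B.2.1 + dot M (cr A B) * (cr A B).2.1 := by
    unfold dot cr; ring
  have i3 : dot (cr A B) (cr A B) * M.2.2 = dot (cr M B) (cr A B) * A.2.2 +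
      dot (cr A M) (cr A B) * B.2.2 + dot M (cr A B) * (cr A B).2.2 := by
    unfold dot cr; ring
  rw [hM, zero_mul, add_zero] at i1 i2 i3
  refine ⟨dot (cr M B) (cr A B) / dot (cr A B) (cr A B),
    dot (cr A M) (cr A B) / dot (cr A B) (cr A B), Prod.ext ?_ (Prod.ext ?_ ?_)⟩
  · simp only
    field_simp
    linarith
  · simp only
    field_simp
    linarith
  · simp only
    field_simp
    linarith

/-- Four zeros in a pencil. -/
private lemma four_lines {F : MvPolynomial (Fin 3) ℝ} (hF : F.IsHomogeneous 3)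
    {N0 N1 N2 N3 : Vec} (h01 : cr N0 N1 ≠ 0) (h02 : cr N0 N2 ≠ 0) (h03 : cr N0 N3 ≠ 0)
    (h12 : cr N1 N2 ≠ 0) (h13 : cr N1 N3 ≠ 0) (h23 : cr N2 N3 ≠ 0) (z0 : ev F N0 = 0)
    (z1 : ev F N1 = 0) (z2 : ev F N2 = 0) (z3 : ev F N3 = 0) (d2 : dot N2 (cr N0 N1) = 0)
    (d3 : dot N3 (cr N0 N1) = 0) : Cn F (cr N0 N1) := by
  obtain ⟨a2, b2, e2⟩ := span2 h01 d2
  obtain ⟨a3, b3, e3⟩ := span2 h01 d3
  have ha2 : a2 ≠ 0 := by
    rintro rfl
    apply h12
    rw [e2]
    exact cr_zero (by simp only; ring) (by simp only; ring) (by simp only; ring)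
  have ha3 : a3 ≠ 0 := by
    rintro rfl
    apply h13
    rw [e3]
    exact cr_zero (by simp only; ring) (by simp only; ring) (by simp only; ring)
  have hb2 : b2 ≠ 0 := by
    rintro rfl
    apply h02
    rw [e2]
    exact cr_zero (by simp only; ring) (by simp only; ring) (by simp only; ring)
  have hb3 : b3 ≠ 0 := by
    rintro rfl
    apply h03
    rw [e3]
    exact cr_zero (by simp only; ring) (by simp only; ring) (by simp only; ring)
  have h32 : a3 * b2 - a2 * b3 ≠ 0 := by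
    intro h
    apply h23
    rw [e2, e3]
    refine cr_zero ?_ ?_ ?_ <;> simp only
    · linear_combination -(N0.2.1 * N1.2.2 - N0.2.2 * N1.2.1) * h
    · linear_combination -(N0.2.2 * N1.1 - N0.1 * N1.2.2) * h
    · linear_combination -(N0.1 * N1.2.1 - N0.2.1 * N1.1) * h
  obtain ⟨x, hx⟩ := Infinite.exists_notMem_finset ({0, b2 / a2, b3 / a3} : Finset ℝ)
  simp only [Finset.mem_insert, Finset.mem_singleton, not_or] at hx
  obtain ⟨x0, x2, x3⟩ := hx
  have y2 : x * a2 - b2 ≠ 0 := by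
    intro h
    exact x2 (by rw [eq_div_iff ha2]; linarith)
  have y3 : x * a3 - b3 ≠ 0 := by
    intro h
    exact x3 (by rw [eq_div_iff ha3]; linarith)
  have key := four_zeros hF (A := N0) (B := (N0.1 + x * N1.1, N0.2.1 + x * N1.2.1,
    N0.2.2 + x * N1.2.2)) (t := ![0, -1, b2 / (x * a2 - b2), b3 / (x * a3 - b3)]) ?_ ?_
  · intro M hM
    obtain ⟨a, b, e⟩ := span2 h01 hM
    have := key (a - b / x) (b / x)
    rw [e]
    simp only at this
    have e' : ((a - b / x) * N0.1 + b / x * (N0.1 + x * N1.1),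
        (a - b / x) * N0.2.1 + b / x * (N0.2.1 + x * N1.2.1),
        (a - b / x) * N0.2.2 + b / x * (N0.2.2 + x * N1.2.2)) =
        ((a * N0.1 + b * N1.1, a * N0.2.1 + b * N1.2.1, a * N0.2.2 + b * N1.2.2) : Vec) := by
      refine Prod.ext ?_ (Prod.ext ?_ ?_) <;> simp only <;> field_simp <;> ring
    rw [e'] at this
    exact this
  · have n2 : b2 / (x * a2 - b2) ≠ 0 := div_ne_zero hb2 y2
    have n3 : b3 / (x * a3 - b3) ≠ 0 := div_ne_zero hb3 y3
    have m2 : b2 / (x * a2 - b2) ≠ -1 := by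
      intro h
      rw [div_eq_iff y2] at h
      exact mul_ne_zero x0 ha2 (by linarith)
    have m3 : b3 / (x * a3 - b3) ≠ -1 := by
      intro h
      rw [div_eq_iff y3] at h
      exact mul_ne_zero x0 ha3 (by linarith)
    have m23 : b2 / (x * a2 - b2) ≠ b3 / (x * a3 - b3) := by
      intro h
      rw [div_eq_div_iff y2 y3] at h
      exact mul_ne_zero x0 h32 (by linear_combination h)
    intro i j hij
    fin_cases i <;> fin_cases j <;> simp at hij ⊢
    · exact n2 hij.symm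
    · exact n3 hij.symm
    · exact m2 hij.symm
    · exact m3 hij.symm
    · exact n2 (div_eq_zero_iff.2 hij)
    · exact m2 hij
    · exact m23 hij
    · exact n3 (div_eq_zero_iff.2 hij)
    · exact m3 hij
    · exact m23 hij.symm
  · intro i
    fin_cases i
    · simp
      exact z0
    · have := ev_smul hF (-x) N1
      rw [z1, mul_zero] at this
      simp
      rw [← this]
      congr 1
      refine Prod.ext ?_ (Prod.ext ?_ ?_) <;> simp only <;> ring
    · have := ev_smul hF (x / (x * a2 - b2)) N2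
      rw [z2, mul_zero] at this
      simp
      rw [← this]
      congr 1
      rw [e2]
      refine Prod.ext ?_ (Prod.ext ?_ ?_) <;> simp only <;> field_simp <;> ring
    · have := ev_smul hF (x / (x * a3 - b3)) N3
      rw [z3, mul_zero] at this
      simp
      rw [← this]
      congr 1
      rw [e3]
      refine Prod.ext ?_ (Prod.ext ?_ ?_) <;> simp only <;> field_simp <;> ring

private lemma ortho {P Q N : Vec} (hP : P ≠ 0) (h : cr P Q = 0) (hN : dot N P = 0) :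
    dot N Q = 0 := by
  obtain ⟨h1, h2, h3⟩ := cr_comps h
  by_cases p1 : P.1 = 0
  · by_cases p2 : P.2.1 = 0
    · have p3 : P.2.2 ≠ 0 := fun p3 => hP (Prod.ext p1 (Prod.ext p2 p3))
      refine (mul_eq_zero.1 ?_).resolve_left p3
      unfold dot at hN ⊢
      linear_combination Q.2.2 * hN + N.1 * h2 - N.2.1 * h1
    · refine (mul_eq_zero.1 ?_).resolve_left p2
      unfold dot at hN ⊢
      linear_combination Q.2.1 * hN - N.1 * h3 + N.2.2 * h1
  · refine (mul_eq_zero.1 ?_).resolve_left p1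
    unfold dot at hN ⊢
    linear_combination Q.1 * hN + N.2.1 * h3 - N.2.2 * h2

private lemma exists_indep {P : Vec} (hP : P ≠ 0) : ∃ Q : Vec, cr P Q ≠ 0 := by
  by_contra h
  push Not at h
  obtain ⟨a1, a2, a3⟩ := cr_comps (h (0, 1, 0))
  obtain ⟨b1, b2, b3⟩ := cr_comps (h (1, 0, 0))
  simp only at a1 a3 b3
  exact hP (Prod.ext (by simp only [Prod.fst_zero]; linarith)
    (Prod.ext (by simp only [Prod.snd_zero, Prod.fst_zero]; linarith)
      (by simp only [Prod.snd_zero]; linarith)))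

/-- The centres of the pencils on which `F` vanishes are among three vectors. -/
private lemma centres {F : MvPolynomial (Fin 3) ℝ} (hF : F.IsHomogeneous 3) (hF0 : F ≠ 0) :
    ∃ P Q R : Vec, cr P Q ≠ 0 ∧ cr P R ≠ 0 ∧ cr Q R ≠ 0 ∧
      ∀ S : Vec, S ≠ 0 → Cn F S → cr S P = 0 ∨ cr S Q = 0 ∨ cr S R = 0 := by
  have ne0 : ∀ {A B : Vec}, cr A B ≠ 0 → A ≠ 0 := by
    intro A B h h0
    rw [h0] at h
    exact h (cr_zero (by simp) (by simp) (by simp))
  have third : ∀ {P Q : Vec}, cr P Q ≠ 0 → ∃ R, cr P R ≠ 0 ∧ cr Q R ≠ 0 := by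
    intro P Q h
    refine ⟨(P.1 + Q.1, P.2.1 + Q.2.1, P.2.2 + Q.2.2), fun h0 => h ?_, fun h0 => h ?_⟩
    · obtain ⟨h1, h2, h3⟩ := cr_comps h0
      simp only at h1 h2 h3
      exact cr_zero (by linarith) (by linarith) (by linarith)
    · obtain ⟨h1, h2, h3⟩ := cr_comps h0
      simp only at h1 h2 h3
      exact cr_zero (by linarith) (by linarith) (by linarith)
  by_cases c1 : ∃ P, P ≠ 0 ∧ Cn F P
  · obtain ⟨P, hP, hPC⟩ := c1
    by_cases c2 : ∃ Q, cr P Q ≠ 0 ∧ Cn F Q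
    · obtain ⟨Q, hPQ, hQC⟩ := c2
      by_cases c3 : ∃ R, cr P R ≠ 0 ∧ cr Q R ≠ 0 ∧ Cn F R
      · obtain ⟨R, hPR, hQR, hRC⟩ := c3
        refine ⟨P, Q, R, hPQ, hPR, hQR, fun S hS hSC => ?_⟩
        by_contra hcon
        push Not at hcon
        obtain ⟨s1, s2, s3⟩ := hcon
        refine three_pencils hF hF0 ![P, Q, R, S] ?_ ?_
        · intro i j hij
          fin_cases i <;> fin_cases j <;> simp at hij ⊢
          exacts [hPQ, hPR, cr_symm_ne s1, cr_symm_ne hPQ, hQR, cr_symm_ne s2, cr_symm_ne hPR,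
            cr_symm_ne hQR, cr_symm_ne s3, s1, s2, s3]
        · intro i
          fin_cases i
          exacts [hPC, hQC, hRC, hSC]
      · push Not at c3
        obtain ⟨R, hPR, hQR⟩ := third hPQ
        refine ⟨P, Q, R, hPQ, hPR, hQR, fun S hS hSC => ?_⟩
        by_contra hcon
        push Not at hcon
        exact c3 S (cr_symm_ne hcon.1) (cr_symm_ne hcon.2.1) hSC
    · push Not at c2
      obtain ⟨Q, hPQ⟩ := exists_indep hP
      obtain ⟨R, hPR, hQR⟩ := third hPQ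
      refine ⟨P, Q, R, hPQ, hPR, hQR, fun S hS hSC => ?_⟩
      by_contra hcon
      push Not at hcon
      exact c2 S (cr_symm_ne hcon.1) hSC
  · push Not at c1
    obtain ⟨Q, hPQ⟩ := exists_indep (P := (1, 0, 0)) (by
      intro h
      exact one_ne_zero (congrArg Prod.fst h))
    obtain ⟨R, hPR, hQR⟩ := third hPQ
    exact ⟨_, Q, R, hPQ, hPR, hQR, fun S hS hSC => absurd hSC (c1 S hS)⟩

private lemma cubic {L : Finset Vec} {n s : ℕ} {F : MvPolynomial (Fin 3) ℝ}
    (hF : F.IsHomogeneous 3) (hF0 : F ≠ 0)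
    (h0 : ∀ N ∈ L, N.1 ≠ 0 ∨ N.2.1 ≠ 0) (hsep : ∀ N ∈ L, ∀ N' ∈ L, cr N N' = 0 → N = N')
    (hr : ∀ a ∈ L, ((L.erase a).image (X a)).card ≤ n + 1)
    (hpen : ∀ P : Vec, P ≠ 0 → (L.filter fun N => dot N P = 0).card ≤ n + 1)
    (hs : (L.filter fun N => ¬ ev F N = 0).card ≤ s) : L.card ≤ 2 * n + 3 + s := by
  classical
  by_cases h : ∃ N ∈ L, ev F N = 0 ∧ ¬ ∃ P, P ≠ 0 ∧ dot N P = 0 ∧ Cn F P
  · obtain ⟨N, hN, hz, hno⟩ := h
    have hsum := Finset.card_filter_add_card_filter_not (s := L) (fun N => ev F N = 0)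
    set K := L.filter fun N => ev F N = 0 with hK
    have hKL : ∀ M ∈ K, M ∈ L ∧ ev F M = 0 := fun M hM => Finset.mem_filter.1 hM
    have hNK : N ∈ K := Finset.mem_filter.2 ⟨hN, hz⟩
    have hfib : ∀ q ∈ (K.erase N).image (X N),
        ((K.erase N).filter fun M => X N M = q).card ≤ 2 := by
      intro q _
      by_contra hcon
      rw [not_le] at hcon
      obtain ⟨N1, N2, N3, m1, m2, m3, n12, n13, n23⟩ := Finset.two_lt_card_iff.1 hcon
      have get : ∀ M, M ∈ (K.erase N).filter (fun M => X N M = q) →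
          M ≠ N ∧ M ∈ L ∧ ev F M = 0 ∧ X N M = q := by
        intro M hM
        obtain ⟨hM1, hM2⟩ := Finset.mem_filter.1 hM
        obtain ⟨hM3, hM4⟩ := Finset.mem_erase.1 hM1
        exact ⟨hM3, (hKL M hM4).1, (hKL M hM4).2, hM2⟩
      obtain ⟨e1, l1, z1, x1⟩ := get N1 m1
      obtain ⟨e2, l2, z2, x2⟩ := get N2 m2
      obtain ⟨e3, l3, z3, x3⟩ := get N3 m3
      have ne : ∀ {A B : Vec}, A ∈ L → B ∈ L → A ≠ B → cr A B ≠ 0 := fun hA hB hAB hc =>
        hAB (hsep _ hA _ hB hc)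
      have c01 := ne hN l1 (Ne.symm e1)
      refine hno ⟨cr N N1, c01, ?_, four_lines hF c01 (ne hN l2 (Ne.symm e2))
        (ne hN l3 (Ne.symm e3)) (ne l1 l2 n12) (ne l1 l3 n13) (ne l2 l3 n23) hz z1 z2 z3 ?_ ?_⟩
      · unfold dot cr; ring
      · have := X_det (h0 N hN) (x1.trans x2.symm)
        rw [dt_cyc, dt_cyc] at this
        exact this
      · have := X_det (h0 N hN) (x1.trans x3.symm)
        rw [dt_cyc, dt_cyc] at this
        exact this
    have h1 := Finset.card_le_mul_card_image (s := K.erase N) 2 hfib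
    have h2 : ((K.erase N).image (X N)).card ≤ n + 1 :=
      (Finset.card_le_card (Finset.image_subset_image (Finset.erase_subset_erase N
        (Finset.filter_subset _ _)))).trans (hr N hN)
    have h3 := Finset.card_erase_add_one hNK
    omega
  · push Not at h
    obtain ⟨P, Q, R, hPQ, hPR, hQR, hall⟩ := centres hF hF0
    have ne0 : ∀ {A B : Vec}, cr A B ≠ 0 → A ≠ 0 ∧ B ≠ 0 := by
      intro A B h
      constructor
      · intro h0
        rw [h0] at h
        exact h (cr_zero (by simp) (by simp) (by simp))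
      · intro h0
        rw [h0] at h
        exact h (cr_zero (by simp) (by simp) (by simp))
    refine core h0 hsep hr hPQ hPR hQR (hpen P (ne0 hPQ).1) (hpen Q (ne0 hPQ).2)
      (hpen R (ne0 hPR).2) (le_trans (Finset.card_le_card ?_) hs)
    intro N hN
    obtain ⟨hNL, k1, k2, k3⟩ := Finset.mem_filter.1 hN
    refine Finset.mem_filter.2 ⟨hNL, fun hz => ?_⟩
    obtain ⟨S, hS, hNS, hSC⟩ := h N hNL hz
    rcases hall S hS hSC with h1 | h1 | h1
    · exact k1 (ortho hS h1 hNS)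
    · exact k2 (ortho hS h1 hNS)
    · exact k3 (ortho hS h1 hNS)

/-! ### Affine lines -/

private lemma mem_dir {d : Submodule ℝ (ℝ × ℝ)} (h : Module.finrank ℝ d = 1) {w : ℝ × ℝ}
    (hw : w ∈ d) (w0 : w.1 ≠ 0 ∨ w.2 ≠ 0) (x : ℝ × ℝ) :
    x ∈ d ↔ w.2 * x.1 + -w.1 * x.2 = 0 := by
  have hne : (⟨w, hw⟩ : d) ≠ 0 := by
    intro h0
    have h1 : w = 0 := congrArg Subtype.val h0
    rw [h1] at w0
    rcases w0 with h2 | h2
    · exact h2 rfl
    · exact h2 rfl
  have hall := (finrank_eq_one_iff_of_nonzero' (⟨w, hw⟩ : d) hne).1 h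
  constructor
  · intro hx
    obtain ⟨c, hc⟩ := hall ⟨x, hx⟩
    have h1 : c • w = x := congrArg Subtype.val hc
    rw [← h1]
    simp only [Prod.smul_fst, Prod.smul_snd, smul_eq_mul]
    ring
  · intro hx
    rcases w0 with h1 | h1
    · have h2 : x = (x.1 / w.1) • w := by
        refine Prod.ext ?_ ?_
        · rw [Prod.smul_fst, smul_eq_mul, div_mul_cancel₀ _ h1]
        · rw [Prod.smul_snd, smul_eq_mul, div_mul_eq_mul_div, eq_div_iff h1]
          linarith
      rw [h2]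
      exact d.smul_mem _ hw
    · have h2 : x = (x.2 / w.2) • w := by
        refine Prod.ext ?_ ?_
        · rw [Prod.smul_fst, smul_eq_mul, div_mul_eq_mul_div, eq_div_iff h1]
          linarith
        · rw [Prod.smul_snd, smul_eq_mul, div_mul_cancel₀ _ h1]
      rw [h2]
      exact d.smul_mem _ hw

private lemma exists_gen {d : Submodule ℝ (ℝ × ℝ)} (h : Module.finrank ℝ d = 1) :
    ∃ w : ℝ × ℝ, w ∈ d ∧ (w.1 ≠ 0 ∨ w.2 ≠ 0) := by
  obtain ⟨w, hw0, -⟩ := finrank_eq_one_iff'.1 h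
  refine ⟨w, w.2, ?_⟩
  by_contra h1
  push Not at h1
  exact hw0 (Subtype.ext (Prod.ext h1.1 h1.2))

private lemma exists_code {l : AffineSubspace ℝ (ℝ × ℝ)} (h : Module.finrank ℝ l.direction = 1) :
    ∃ N : Vec, (N.1 ≠ 0 ∨ N.2.1 ≠ 0) ∧ (∀ p : ℝ × ℝ, p ∈ l ↔ N.1 * p.1 + N.2.1 * p.2 + N.2.2 = 0) ∧
      (∀ d : ℝ × ℝ, d ∈ l.direction ↔ N.1 * d.1 + N.2.1 * d.2 = 0) := by
  obtain ⟨w, hw, w1⟩ := exists_gen h
  have hne : (l : Set (ℝ × ℝ)).Nonempty := by
    rw [AffineSubspace.nonempty_iff_ne_bot]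
    rintro rfl
    rw [AffineSubspace.direction_bot, finrank_bot] at h
    exact zero_ne_one h
  obtain ⟨p₀, hp₀⟩ := hne
  have hdir := mem_dir h hw w1
  refine ⟨(w.2, -w.1, -(w.2 * p₀.1 - w.1 * p₀.2)), ?_, ?_, hdir⟩
  · rcases w1 with h1 | h1
    · exact Or.inr (neg_ne_zero.2 h1)
    · exact Or.inl h1
  · intro p
    have h1 : p ∈ l ↔ p -ᵥ p₀ ∈ l.direction :=
      (AffineSubspace.vsub_right_mem_direction_iff_mem hp₀ p).symm
    rw [h1, hdir, vsub_eq_sub, Prod.fst_sub, Prod.snd_sub]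
    show w.2 * (p.1 - p₀.1) + -w.1 * (p.2 - p₀.2) = 0 ↔
      w.2 * p.1 + -w.1 * p.2 + -(w.2 * p₀.1 - w.1 * p₀.2) = 0
    have h2 : w.2 * (p.1 - p₀.1) + -w.1 * (p.2 - p₀.2) =
      w.2 * p.1 + -w.1 * p.2 + -(w.2 * p₀.1 - w.1 * p₀.2) := by ring
    rw [h2]

private lemma same {N M : Vec} (hN : N.1 ≠ 0 ∨ N.2.1 ≠ 0) (h : cr N M = 0) {x y z : ℝ}
    (hp : N.1 * x + N.2.1 * y + N.2.2 * z = 0) : M.1 * x + M.2.1 * y + M.2.2 * z = 0 := by
  obtain ⟨h1, h2, h3⟩ := cr_comps h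
  rcases hN with h0 | h0
  · refine (mul_eq_zero.1 ?_).resolve_left h0
    linear_combination M.1 * hp + y * h3 - z * h2
  · refine (mul_eq_zero.1 ?_).resolve_left h0
    linear_combination M.2.1 * hp - x * h3 + z * h1

/-- Two lines with a common point which are not parallel. -/
private lemma meet {N M : Vec} (h : cr N M ≠ 0) {p : ℝ × ℝ}
    (h1 : N.1 * p.1 + N.2.1 * p.2 + N.2.2 = 0) (h2 : M.1 * p.1 + M.2.1 * p.2 + M.2.2 = 0) :
    X N M = some p := by
  refine X_eq (fun h3 => h (cr_zero ?_ ?_ h3)) h1 h2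
  · linear_combination N.2.1 * h2 - M.2.1 * h1 + p.1 * h3
  · linear_combination M.1 * h1 - N.1 * h2 + p.2 * h3

/-- A finite set of lines of the plane as a finite set of vectors. -/
private lemma setup (n : ℕ) (L : Finset (AffineSubspace ℝ (ℝ × ℝ)))
    (hline : ∀ l ∈ L, Module.finrank ℝ l.direction = 1)
    (hpt : ∀ l ∈ L, ({p : ℝ × ℝ | p ∈ l ∧ ∃ m ∈ L, m ≠ l ∧ p ∈ m}).ncard ≤ n)
    (hpar : ∀ l ∈ L,
      ({m : AffineSubspace ℝ (ℝ × ℝ) | m ∈ L ∧ AffineSubspace.Parallel m l}).ncard ≤ n)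
    (hmul : ∀ p : ℝ × ℝ, ({l : AffineSubspace ℝ (ℝ × ℝ) | l ∈ L ∧ p ∈ l}).ncard ≤ n + 1) :
    ∃ (code : AffineSubspace ℝ (ℝ × ℝ) → Vec) (K : Finset Vec), (∀ N, N ∈ K ↔ ∃ l ∈ L, code l = N) ∧
      (∀ l ∈ L, ((code l).1 ≠ 0 ∨ (code l).2.1 ≠ 0) ∧
        (∀ p : ℝ × ℝ, p ∈ l ↔ (code l).1 * p.1 + (code l).2.1 * p.2 + (code l).2.2 = 0) ∧
        ∀ d : ℝ × ℝ, d ∈ l.direction ↔ (code l).1 * d.1 + (code l).2.1 * d.2 = 0) ∧
      K.card = L.card ∧ (∀ N ∈ K, N.1 ≠ 0 ∨ N.2.1 ≠ 0) ∧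
      (∀ N ∈ K, ∀ N' ∈ K, cr N N' = 0 → N = N') ∧
      (∀ a ∈ K, ((K.erase a).image (X a)).card ≤ n + 1) ∧
      ∀ P : Vec, P ≠ 0 → (K.filter fun N => dot N P = 0).card ≤ n + 1 := by
  classical
  choose! code hcode using fun (l : AffineSubspace ℝ (ℝ × ℝ)) (hl : l ∈ L) =>
    exists_code (hline l hl)
  have hinj : ∀ l ∈ L, ∀ m ∈ L, cr (code l) (code m) = 0 → l = m := by
    intro l hl m hm h
    ext p
    rw [(hcode l hl).2.1, (hcode m hm).2.1]
    have h' : cr (code m) (code l) = 0 := by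
      obtain ⟨h1, h2, h3⟩ := cr_comps h
      exact cr_zero (by linarith) (by linarith) (by linarith)
    constructor
    · intro hp
      have := same (hcode l hl).1 h (x := p.1) (y := p.2) (z := 1) (by linarith)
      linarith
    · intro hp
      have := same (hcode m hm).1 h' (x := p.1) (y := p.2) (z := 1) (by linarith)
      linarith
  have crself : ∀ N : Vec, cr N N = 0 := fun N => cr_zero (by ring) (by ring) (by ring)
  set K := L.image code with hK
  have hKcard : K.card = L.card := Finset.card_image_of_injOn fun l hl m hm e =>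
    hinj l hl m hm (by
      have e' : code l = code m := e
      rw [e']; exact crself _)
  refine ⟨code, K, fun N => Finset.mem_image, hcode, hKcard, ?_, ?_, ?_, ?_⟩
  · intro N hN
    obtain ⟨l, hl, rfl⟩ := Finset.mem_image.1 hN
    exact (hcode l hl).1
  · intro N hN N' hN' h
    obtain ⟨l, hl, rfl⟩ := Finset.mem_image.1 hN
    obtain ⟨m, hm, rfl⟩ := Finset.mem_image.1 hN'
    rw [hinj l hl m hm h]
  · intro a ha
    obtain ⟨l, hl, rfl⟩ := Finset.mem_image.1 ha
    have hfin : ({p : ℝ × ℝ | p ∈ l ∧ ∃ m ∈ L, m ≠ l ∧ p ∈ m}).Finite := by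
      refine (((K.erase (code l)).image (X (code l))).finite_toSet.preimage
        (f := (some : ℝ × ℝ → Option (ℝ × ℝ)))
        ((Option.some_injective _).injOn)).subset ?_
      rintro p ⟨hp, m, hm, hml, hpm⟩
      rw [Set.mem_preimage, Finset.mem_coe, Finset.mem_image]
      have hne : cr (code l) (code m) ≠ 0 := fun h => hml (hinj l hl m hm h).symm
      refine ⟨code m, Finset.mem_erase.2 ⟨?_, Finset.mem_image_of_mem _ hm⟩, ?_⟩
      · intro e
        exact hne (by rw [e]; exact crself _)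
      · exact meet hne (((hcode l hl).2.1 p).1 hp) (((hcode m hm).2.1 p).1 hpm)
    have hsub : (K.erase (code l)).image (X (code l)) ⊆
        insert none (hfin.toFinset.image some) := by
      intro q hq
      obtain ⟨b, hb, rfl⟩ := Finset.mem_image.1 hq
      obtain ⟨hbl, hbK⟩ := Finset.mem_erase.1 hb
      obtain ⟨m, hm, rfl⟩ := Finset.mem_image.1 hbK
      rw [Finset.mem_insert, Finset.mem_image]
      cases hX : X (code l) (code m) with
      | none => exact Or.inl rfl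
      | some p =>
        obtain ⟨-, h1, h2⟩ := X_some hX
        refine Or.inr ⟨p, ?_, rfl⟩
        rw [Set.Finite.mem_toFinset]
        exact ⟨((hcode l hl).2.1 p).2 h1, m, hm, fun e => hbl (by rw [e]),
          ((hcode m hm).2.1 p).2 h2⟩
    refine (Finset.card_le_card hsub).trans ((Finset.card_insert_le _ _).trans ?_)
    refine Nat.add_le_add (Finset.card_image_le.trans ?_) le_rfl
    rw [← Set.ncard_eq_toFinset_card _ hfin]
    exact hpt l hl
  · intro P hP
    have him : K.filter (fun N => dot N P = 0) ⊆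
        (L.filter fun l => dot (code l) P = 0).image code := by
      intro N hN
      obtain ⟨hNK, hNP⟩ := Finset.mem_filter.1 hN
      obtain ⟨l, hl, rfl⟩ := Finset.mem_image.1 hNK
      exact Finset.mem_image.2 ⟨l, Finset.mem_filter.2 ⟨hl, hNP⟩, rfl⟩
    refine (Finset.card_le_card him).trans (Finset.card_image_le.trans ?_)
    rw [← Set.ncard_coe_finset]
    by_cases h3 : P.2.2 = 0
    · have hd : P.1 ≠ 0 ∨ P.2.1 ≠ 0 := by
        by_contra hcon
        push Not at hcon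
        exact hP (Prod.ext hcon.1 (Prod.ext hcon.2 h3))
      have hdir : ∀ l ∈ L, dot (code l) P = 0 → (P.1, P.2.1) ∈ l.direction := by
        intro l hl h
        rw [(hcode l hl).2.2]
        unfold dot at h
        rw [h3, mul_zero, add_zero] at h
        exact h
      rcases (L.filter fun l => dot (code l) P = 0).eq_empty_or_nonempty with h | ⟨l₀, hl₀⟩
      · rw [h]; simp
      · obtain ⟨hl₀, e₀⟩ := Finset.mem_filter.1 hl₀
        refine le_trans (Set.ncard_le_ncard ?_ ?_) ((hpar l₀ hl₀).trans (Nat.le_succ n))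
        · intro l hl
          obtain ⟨hl, e⟩ := Finset.mem_filter.1 (Finset.mem_coe.1 hl)
          refine ⟨hl, ?_⟩
          rw [AffineSubspace.parallel_iff_direction_eq_and_eq_bot_iff_eq_bot]
          have nb : ∀ m ∈ L, m ≠ ⊥ := by
            rintro m hm rfl
            have := hline _ hm
            rw [AffineSubspace.direction_bot, finrank_bot] at this
            exact zero_ne_one this
          refine ⟨?_, iff_of_false (nb l hl) (nb l₀ hl₀)⟩
          ext x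
          rw [mem_dir (hline l hl) (hdir l hl e) hd, mem_dir (hline l₀ hl₀) (hdir l₀ hl₀ e₀) hd]
        · exact L.finite_toSet.subset fun m hm => hm.1
    · refine le_trans (le_of_eq ?_) (hmul (P.1 / P.2.2, P.2.1 / P.2.2))
      congr 1
      ext l
      rw [Finset.mem_coe, Finset.mem_filter, Set.mem_ofPred_eq]
      have key : ∀ l ∈ L, (dot (code l) P = 0 ↔ (P.1 / P.2.2, P.2.1 / P.2.2) ∈ l) := by
        intro l hl
        rw [(hcode l hl).2.1]
        have e : dot (code l) P = P.2.2 * ((code l).1 * (P.1 / P.2.2) +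
            (code l).2.1 * (P.2.1 / P.2.2) + (code l).2.2) := by
          unfold dot
          field_simp
        rw [e, mul_eq_zero, or_iff_right h3]
      constructor
      · rintro ⟨hl, h⟩; exact ⟨hl, (key l hl).1 h⟩
      · rintro ⟨hl, h⟩; exact ⟨hl, (key l hl).2 h⟩

/-- A line with two equations. -/
private lemma ev_eq {F : MvPolynomial (Fin 3) ℝ} (hF : F.IsHomogeneous 3) {N M : Vec}
    (hN : N.1 ≠ 0 ∨ N.2.1 ≠ 0)
    (h : ∀ p : ℝ × ℝ, N.1 * p.1 + N.2.1 * p.2 + N.2.2 = 0 ↔ M.1 * p.1 + M.2.1 * p.2 + M.2.2 = 0)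
    (hM : ev F M = 0) : ev F N = 0 := by
  obtain ⟨p, hp⟩ : ∃ p : ℝ × ℝ, N.1 * p.1 + N.2.1 * p.2 + N.2.2 = 0 := by
    rcases hN with h1 | h1
    · refine ⟨(-N.2.2 / N.1, 0), ?_⟩
      simp only
      field_simp
      ring
    · refine ⟨(0, -N.2.2 / N.2.1), ?_⟩
      simp only
      field_simp
      ring
  have hp' := (h p).1 hp
  have hq : N.1 * (p.1 - N.2.1) + N.2.1 * (p.2 + N.1) + N.2.2 = 0 := by linear_combination hp
  have hq' := (h (p.1 - N.2.1, p.2 + N.1)).1 hq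
  simp only at hq'
  have hne : ¬ (M.1 = 0 ∧ M.2.1 = 0) := by
    rintro ⟨m1, m2⟩
    have hw : M.2.2 = 0 := by rw [m1, m2] at hp'; linarith
    have h1 := (h (p.1 + N.1, p.2 + N.2.1)).2 (by simp only; rw [m1, m2, hw]; ring)
    simp only at h1
    have h2 : N.1 * N.1 + N.2.1 * N.2.1 = 0 := by linarith
    have a1 := mul_self_nonneg N.1
    have a2 := mul_self_nonneg N.2.1
    rcases hN with h3 | h3
    · exact h3 (mul_self_eq_zero.1 (by linarith))
    · exact h3 (mul_self_eq_zero.1 (by linarith))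
  have hcr : cr N M = 0 := by
    refine two_pts (P := (p.1, p.2, 1)) (Q := (p.1 - N.2.1, p.2 + N.1, 1)) ?_ ?_ ?_ ?_ ?_
    · intro h0
      obtain ⟨h1, h2, -⟩ := cr_comps h0
      simp only at h1 h2
      rcases hN with h3 | h3
      · exact h3 (by linarith)
      · exact h3 (by linarith)
    · unfold dot; simp only; linarith
    · unfold dot; simp only; linarith
    · unfold dot; simp only; linarith
    · unfold dot; simp only; linarith
  obtain ⟨h1, h2, h3⟩ := cr_comps hcr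
  by_cases m1 : M.1 = 0
  · have m2 : M.2.1 ≠ 0 := fun m2 => hne ⟨m1, m2⟩
    have e : N = (N.2.1 / M.2.1 * M.1, N.2.1 / M.2.1 * M.2.1, N.2.1 / M.2.1 * M.2.2) := by
      refine Prod.ext ?_ (Prod.ext ?_ ?_) <;> simp only <;> field_simp <;> linarith
    rw [e, ev_smul hF, hM, mul_zero]
  · have e : N = (N.1 / M.1 * M.1, N.1 / M.1 * M.2.1, N.1 / M.1 * M.2.2) := by
      refine Prod.ext ?_ (Prod.ext ?_ ?_) <;> simp only <;> field_simp <;> linarith
    rw [e, ev_smul hF, hM, mul_zero]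

/-- All but `s` lines are on a cubic curve of the dual plane. -/
private lemma partA (n s : ℕ) (L : Finset (AffineSubspace ℝ (ℝ × ℝ)))
    (hline : ∀ l ∈ L, Module.finrank ℝ l.direction = 1)
    (hpt : ∀ l ∈ L, ({p : ℝ × ℝ | p ∈ l ∧ ∃ m ∈ L, m ≠ l ∧ p ∈ m}).ncard ≤ n)
    (hpar : ∀ l ∈ L,
      ({m : AffineSubspace ℝ (ℝ × ℝ) | m ∈ L ∧ AffineSubspace.Parallel m l}).ncard ≤ n)
    (hmul : ∀ p : ℝ × ℝ, ({l : AffineSubspace ℝ (ℝ × ℝ) | l ∈ L ∧ p ∈ l}).ncard ≤ n + 1)
    (F : MvPolynomial (Fin 3) ℝ) (hF : F.IsHomogeneous 3) (hF0 : F ≠ 0)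
    (hs : ({l : AffineSubspace ℝ (ℝ × ℝ) | l ∈ L ∧ ¬ ∃ u v w : ℝ,
        (∀ p : ℝ × ℝ, p ∈ l ↔ u * p.1 + v * p.2 + w = 0) ∧
          MvPolynomial.eval ![u, v, w] F = 0}).ncard ≤ s) : L.card ≤ 2 * n + 3 + s := by
  classical
  obtain ⟨code, K, hKmem, hcode, hKcard, h0, hsep, hr, hpen⟩ := setup n L hline hpt hpar hmul
  rw [← hKcard]
  refine cubic hF hF0 h0 hsep hr hpen ?_
  have him : K.filter (fun N => ¬ ev F N = 0) ⊆ (L.filter fun l => ¬ ∃ u v w : ℝ,
      (∀ p : ℝ × ℝ, p ∈ l ↔ u * p.1 + v * p.2 + w = 0) ∧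
        MvPolynomial.eval ![u, v, w] F = 0).image code := by
    intro N hN
    obtain ⟨hNK, hNF⟩ := Finset.mem_filter.1 hN
    obtain ⟨l, hl, rfl⟩ := (hKmem N).1 hNK
    refine Finset.mem_image.2 ⟨l, Finset.mem_filter.2 ⟨hl, ?_⟩, rfl⟩
    rintro ⟨u, v, w, h1, h2⟩
    refine hNF (ev_eq hF (M := (u, v, w)) (hcode l hl).1 (fun p => ?_) h2)
    rw [← (hcode l hl).2.1 p]
    exact h1 p
  refine (Finset.card_le_card him).trans (Finset.card_image_le.trans ?_)
  rw [← Set.ncard_coe_finset]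
  refine le_trans (le_of_eq ?_) hs
  congr 1
  ext l
  rw [Finset.mem_coe, Finset.mem_filter]
  rfl

/-- All but `s` lines are in three pencils. -/
private lemma partB (n s : ℕ) (L : Finset (AffineSubspace ℝ (ℝ × ℝ)))
    (hline : ∀ l ∈ L, Module.finrank ℝ l.direction = 1)
    (hpt : ∀ l ∈ L, ({p : ℝ × ℝ | p ∈ l ∧ ∃ m ∈ L, m ≠ l ∧ p ∈ m}).ncard ≤ n)
    (hpar : ∀ l ∈ L,
      ({m : AffineSubspace ℝ (ℝ × ℝ) | m ∈ L ∧ AffineSubspace.Parallel m l}).ncard ≤ n)
    (hmul : ∀ p : ℝ × ℝ, ({l : AffineSubspace ℝ (ℝ × ℝ) | l ∈ L ∧ p ∈ l}).ncard ≤ n + 1)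
    (V : Finset (ℝ × ℝ)) (D : Finset (Submodule ℝ (ℝ × ℝ))) (hVD : V.card + D.card ≤ 3)
    (hs : ({l : AffineSubspace ℝ (ℝ × ℝ) |
        l ∈ L ∧ (∀ p ∈ V, p ∉ l) ∧ l.direction ∉ D}).ncard ≤ s) : L.card ≤ 2 * n + 3 + s := by
  classical
  obtain ⟨code, K, hKmem, hcode, hKcard, h0, hsep, hr, hpen⟩ := setup n L hline hpt hpar hmul
  have crself : ∀ N : Vec, cr N N = 0 := fun N => cr_zero (by ring) (by ring) (by ring)
  -- the centres
  have hgen : ∀ d : Submodule ℝ (ℝ × ℝ), ∃ w : ℝ × ℝ, Module.finrank ℝ d = 1 →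
      w ∈ d ∧ (w.1 ≠ 0 ∨ w.2 ≠ 0) := by
    intro d
    by_cases h : Module.finrank ℝ d = 1
    · obtain ⟨w, hw⟩ := exists_gen h
      exact ⟨w, fun _ => hw⟩
    · exact ⟨0, fun h' => absurd h' h⟩
  choose gen hgen using hgen
  set D1 := D.filter fun d : Submodule ℝ (ℝ × ℝ) => Module.finrank ℝ d = 1 with hD1
  have hD1c : D1.card ≤ D.card := Finset.card_filter_le _ _
  obtain ⟨V', hVV', hV'c⟩ := Infinite.exists_superset_card_eq V (3 - D1.card) (by omega)
  let vp : ℝ × ℝ → Vec := fun p => (p.1, p.2, 1)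
  let vd : Submodule ℝ (ℝ × ℝ) → Vec := fun d => ((gen d).1, (gen d).2, 0)
  have dvp : ∀ l ∈ L, ∀ p, dot (code l) (vp p) = 0 ↔ p ∈ l := by
    intro l hl p
    rw [(hcode l hl).2.1]
    show (code l).1 * p.1 + (code l).2.1 * p.2 + (code l).2.2 * 1 = 0 ↔ _
    rw [mul_one]
  have dvd : ∀ l ∈ L, ∀ d, dot (code l) (vd d) = 0 ↔ gen d ∈ l.direction := by
    intro l hl d
    rw [(hcode l hl).2.2]
    show (code l).1 * (gen d).1 + (code l).2.1 * (gen d).2 + (code l).2.2 * 0 = 0 ↔ _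
    rw [mul_zero, add_zero]
  have hD1m : ∀ d ∈ D1, Module.finrank ℝ d = 1 := fun d hd => (Finset.mem_filter.1 hd).2
  -- pairwise independence
  have i1 : ∀ p q, p ≠ q → cr (vp p) (vp q) ≠ 0 := by
    intro p q hpq h
    obtain ⟨h1, h2, -⟩ := cr_comps h
    simp only [vp] at h1 h2
    exact hpq (Prod.ext (by linarith) (by linarith))
  have i2 : ∀ p, ∀ d ∈ D1, cr (vp p) (vd d) ≠ 0 := by
    intro p d hd h
    obtain ⟨h1, h2, -⟩ := cr_comps h
    simp only [vp, vd] at h1 h2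
    rcases (hgen d (hD1m d hd)).2 with h3 | h3
    · exact h3 (by linarith)
    · exact h3 (by linarith)
  have i3 : ∀ d ∈ D1, ∀ d' ∈ D1, d ≠ d' → cr (vd d) (vd d') ≠ 0 := by
    intro d hd d' hd' hne h
    apply hne
    obtain ⟨-, -, h3⟩ := cr_comps h
    simp only [vd] at h3
    obtain ⟨w1, w2⟩ := hgen d (hD1m d hd)
    obtain ⟨w3, w4⟩ := hgen d' (hD1m d' hd')
    ext x
    rw [mem_dir (hD1m d hd) w1 w2, mem_dir (hD1m d' hd') w3 w4]
    have c1 : cr ((gen d).2, -(gen d).1, 0) ((gen d').2, -(gen d').1, 0) = 0 :=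
      cr_zero (by simp) (by simp) (by simp only; linarith)
    have c2 : cr ((gen d').2, -(gen d').1, 0) ((gen d).2, -(gen d).1, 0) = 0 :=
      cr_zero (by simp) (by simp) (by simp only; linarith)
    constructor
    · intro hx
      have := same (N := ((gen d).2, -(gen d).1, 0)) (by
        rcases w2 with h | h
        · exact Or.inr (neg_ne_zero.2 h)
        · exact Or.inl h) c1 (x := x.1) (y := x.2) (z := 0) (by simp only; linarith)
      simp only at this
      linarith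
    · intro hx
      have := same (N := ((gen d').2, -(gen d').1, 0)) (by
        rcases w4 with h | h
        · exact Or.inr (neg_ne_zero.2 h)
        · exact Or.inl h) c2 (x := x.1) (y := x.2) (z := 0) (by simp only; linarith)
      simp only at this
      linarith
  set W := V'.image vp ∪ D1.image vd with hW
  have hind : ∀ P ∈ W, ∀ Q ∈ W, P ≠ Q → cr P Q ≠ 0 := by
    intro P hP Q hQ hPQ
    rw [hW, Finset.mem_union, Finset.mem_image, Finset.mem_image] at hP hQ
    rcases hP with ⟨p, hp, rfl⟩ | ⟨d, hd, rfl⟩ <;> rcases hQ with ⟨q, hq, rfl⟩ | ⟨e, he, rfl⟩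
    · exact i1 p q fun h => hPQ (by rw [h])
    · exact i2 p e he
    · exact cr_symm_ne (i2 q d hd)
    · exact i3 d hd e he fun h => hPQ (by rw [h])
  have hWc : W.card = 3 := by
    rw [hW, Finset.card_union_of_disjoint, Finset.card_image_of_injOn, Finset.card_image_of_injOn,
      hV'c]
    · omega
    · intro d hd d' hd' e
      by_contra hne
      refine i3 d hd d' hd' hne ?_
      have e' : vd d = vd d' := e
      rw [e']; exact crself _
    · intro p _ q _ e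
      by_contra hne
      refine i1 p q hne ?_
      have e' : vp p = vp q := e
      rw [e']; exact crself _
    · rw [Finset.disjoint_left]
      intro P hP hP'
      obtain ⟨p, hp, rfl⟩ := Finset.mem_image.1 hP
      obtain ⟨d, hd, e⟩ := Finset.mem_image.1 hP'
      refine i2 p d hd ?_
      rw [e]; exact crself _
  have hexc : (K.filter fun N => ∀ P ∈ W, dot N P ≠ 0).card ≤ s := by
    have him : K.filter (fun N => ∀ P ∈ W, dot N P ≠ 0) ⊆
        (L.filter fun l => (∀ p ∈ V, p ∉ l) ∧ l.direction ∉ D).image code := by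
      intro N hN
      obtain ⟨hNK, hNP⟩ := Finset.mem_filter.1 hN
      obtain ⟨l, hl, rfl⟩ := (hKmem N).1 hNK
      refine Finset.mem_image.2 ⟨l, Finset.mem_filter.2 ⟨hl, ?_, ?_⟩, rfl⟩
      · intro p hp hpl
        refine hNP (vp p) ?_ ((dvp l hl p).2 hpl)
        rw [hW, Finset.mem_union]
        exact Or.inl (Finset.mem_image_of_mem _ (hVV' hp))
      · intro hd
        have hd1 : l.direction ∈ D1 := Finset.mem_filter.2 ⟨hd, hline l hl⟩
        refine hNP (vd l.direction) ?_ ((dvd l hl _).2 (hgen _ (hline l hl)).1)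
        rw [hW, Finset.mem_union]
        exact Or.inr (Finset.mem_image_of_mem _ hd1)
    refine (Finset.card_le_card him).trans (Finset.card_image_le.trans ?_)
    rw [← Set.ncard_coe_finset]
    refine le_trans (le_of_eq ?_) hs
    congr 1
    ext l
    simp
  obtain ⟨P, Q, R, hPQ, hPR, hQR, hWe⟩ := Finset.card_eq_three.1 hWc
  have mP : P ∈ W := by rw [hWe]; simp
  have mQ : Q ∈ W := by rw [hWe]; simp
  have mR : R ∈ W := by rw [hWe]; simp
  rw [← hKcard]
  have ne0 : ∀ {A B : Vec}, cr A B ≠ 0 → A ≠ 0 ∧ B ≠ 0 := by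
    intro A B h
    constructor
    · intro h0
      rw [h0] at h
      exact h (cr_zero (by simp) (by simp) (by simp))
    · intro h0
      rw [h0] at h
      exact h (cr_zero (by simp) (by simp) (by simp))
  refine core (P := P) (Q := Q) (R := R) h0 hsep hr (hind P mP Q mQ hPQ) (hind P mP R mR hPR)
    (hind Q mQ R mR hQR) (hpen P (ne0 (hind P mP Q mQ hPQ)).1)
    (hpen Q (ne0 (hind P mP Q mQ hPQ)).2) (hpen R (ne0 (hind P mP R mR hPR)).2) ?_
  refine le_trans (Finset.card_le_card ?_) hexc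
  intro N hN
  obtain ⟨hNK, hN1, hN2, hN3⟩ := Finset.mem_filter.1 hN
  refine Finset.mem_filter.2 ⟨hNK, fun S hS => ?_⟩
  rw [hWe, Finset.mem_insert, Finset.mem_insert, Finset.mem_singleton] at hS
  rcases hS with rfl | rfl | rfl
  · exact hN1
  · exact hN2
  · exact hN3

/-- At most three points, finite or at infinity, are on more than three lines. -/
private lemma partC (n : ℕ) (L : Finset (AffineSubspace ℝ (ℝ × ℝ)))
    (hline : ∀ l ∈ L, Module.finrank ℝ l.direction = 1)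
    (hpt : ∀ l ∈ L, ({p : ℝ × ℝ | p ∈ l ∧ ∃ m ∈ L, m ≠ l ∧ p ∈ m}).ncard ≤ n)
    (hpar : ∀ l ∈ L,
      ({m : AffineSubspace ℝ (ℝ × ℝ) | m ∈ L ∧ AffineSubspace.Parallel m l}).ncard ≤ n)
    (hmul : ∀ p : ℝ × ℝ, ({l : AffineSubspace ℝ (ℝ × ℝ) | l ∈ L ∧ p ∈ l}).ncard ≤ n + 1)
    (h3 : ({p : ℝ × ℝ | 4 ≤ ({l : AffineSubspace ℝ (ℝ × ℝ) | l ∈ L ∧ p ∈ l}).ncard}).ncard +
      ({d : Submodule ℝ (ℝ × ℝ) |
        4 ≤ ({l : AffineSubspace ℝ (ℝ × ℝ) | l ∈ L ∧ l.direction = d}).ncard}).ncard ≤ 3) :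
    L.card ≤ 2 * n + 3 := by
  classical
  obtain ⟨code, K, hKmem, hcode, hKcard, h0, hsep, hr, hpen⟩ := setup n L hline hpt hpar hmul
  have fin1 : ∀ q : AffineSubspace ℝ (ℝ × ℝ) → Prop,
      ({l : AffineSubspace ℝ (ℝ × ℝ) | l ∈ L ∧ q l}).Finite := fun q =>
    L.finite_toSet.subset fun m hm => hm.1
  have crself : ∀ N : Vec, cr N N = 0 := fun N => cr_zero (by ring) (by ring) (by ring)
  have hdiff : ∀ l ∈ L, ∀ m ∈ L, l ≠ m → cr (code l) (code m) ≠ 0 := by
    intro l hl m hm hlm h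
    have e := hsep _ ((hKmem _).2 ⟨l, hl, rfl⟩) _ ((hKmem _).2 ⟨m, hm, rfl⟩) h
    apply hlm
    ext p
    rw [(hcode l hl).2.1, (hcode m hm).2.1, e]
  set V := {p : ℝ × ℝ | 4 ≤ ({l : AffineSubspace ℝ (ℝ × ℝ) | l ∈ L ∧ p ∈ l}).ncard} with hV
  set D := {d : Submodule ℝ (ℝ × ℝ) |
    4 ≤ ({l : AffineSubspace ℝ (ℝ × ℝ) | l ∈ L ∧ l.direction = d}).ncard} with hD
  have hVfin : V.Finite := by
    refine (((K ×ˢ K).image fun ab : Vec × Vec => X ab.1 ab.2).finite_toSet.preimage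
      (f := (some : ℝ × ℝ → Option (ℝ × ℝ))) ((Option.some_injective _).injOn)).subset ?_
    intro p hp
    have hp' : 4 ≤ ({l : AffineSubspace ℝ (ℝ × ℝ) | l ∈ L ∧ p ∈ l}).ncard := hp
    obtain ⟨l, m, hl, hm, hlm⟩ := (Set.one_lt_ncard_iff (fin1 _)).1 (by omega :
      1 < ({l : AffineSubspace ℝ (ℝ × ℝ) | l ∈ L ∧ p ∈ l}).ncard)
    rw [Set.mem_preimage, Finset.mem_coe, Finset.mem_image]
    exact ⟨(code l, code m), Finset.mem_product.2 ⟨(hKmem _).2 ⟨l, hl.1, rfl⟩,
      (hKmem _).2 ⟨m, hm.1, rfl⟩⟩, meet (hdiff l hl.1 m hm.1 hlm)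
        (((hcode l hl.1).2.1 p).1 hl.2) (((hcode m hm.1).2.1 p).1 hm.2)⟩
  have hDfin : D.Finite := by
    refine (L.image fun l => l.direction).finite_toSet.subset ?_
    intro d hd
    have hd' : 4 ≤ ({l : AffineSubspace ℝ (ℝ × ℝ) | l ∈ L ∧ l.direction = d}).ncard := hd
    obtain ⟨l, m, hl, -, -⟩ := (Set.one_lt_ncard_iff (fin1 _)).1 (by omega :
      1 < ({l : AffineSubspace ℝ (ℝ × ℝ) | l ∈ L ∧ l.direction = d}).ncard)
    exact Finset.mem_coe.2 (Finset.mem_image.2 ⟨l, hl.1, hl.2⟩)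
  by_cases hex : ∃ l ∈ L, (∀ p ∈ V, p ∉ l) ∧ l.direction ∉ D
  · obtain ⟨l, hl, h1, h2⟩ := hex
    have hlK : code l ∈ K := (hKmem _).2 ⟨l, hl, rfl⟩
    have gen : ∀ (q : Option (ℝ × ℝ)) (r : AffineSubspace ℝ (ℝ × ℝ) → Prop), r l →
        ({m : AffineSubspace ℝ (ℝ × ℝ) | m ∈ L ∧ r m}).ncard ≤ 3 →
        (∀ m ∈ L, X (code l) (code m) = q → r m) →
        ((K.erase (code l)).filter fun M => X (code l) M = q).card ≤ 2 := by
      intro q r hrl hr3 hrm
      have e1 : ((L.filter r).erase l).card ≤ 2 := by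
        have e2 : (L.filter r).card ≤ 3 := by
          rw [← Set.ncard_coe_finset]
          refine le_trans (le_of_eq ?_) hr3
          congr 1
          ext m
          rw [Finset.mem_coe, Finset.mem_filter]
          rfl
        rw [Finset.card_erase_of_mem (Finset.mem_filter.2 ⟨hl, hrl⟩)]
        omega
      refine le_trans (Finset.card_le_card ?_) (Finset.card_image_le.trans e1 :
        (((L.filter r).erase l).image code).card ≤ 2)
      intro M hM
      obtain ⟨hM1, hM2⟩ := Finset.mem_filter.1 hM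
      obtain ⟨hM3, hM4⟩ := Finset.mem_erase.1 hM1
      obtain ⟨m, hm, rfl⟩ := (hKmem M).1 hM4
      exact Finset.mem_image.2 ⟨m, Finset.mem_erase.2 ⟨fun e => hM3 (by rw [e]),
        Finset.mem_filter.2 ⟨hm, hrm m hm hM2⟩⟩, rfl⟩
    have hfib : ∀ q ∈ (K.erase (code l)).image (X (code l)),
        ((K.erase (code l)).filter fun M => X (code l) M = q).card ≤ 2 := by
      intro q _
      cases q with
      | none =>
        refine gen none (fun m => m.direction = l.direction) rfl ?_ ?_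
        · by_contra hcon
          exact h2 (show 4 ≤ _ by omega)
        · intro m hm hX
          have hc := X_none hX
          have c1 : cr ((code l).1, (code l).2.1, 0) ((code m).1, (code m).2.1, 0) = 0 :=
            cr_zero (by simp) (by simp) hc
          have c2 : cr ((code m).1, (code m).2.1, 0) ((code l).1, (code l).2.1, 0) = 0 :=
            cr_zero (by simp) (by simp) (by simp only; linarith)
          ext x
          rw [(hcode m hm).2.2, (hcode l hl).2.2]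
          constructor
          · intro hx
            have := same (N := ((code m).1, (code m).2.1, 0)) (hcode m hm).1 c2 (x := x.1)
              (y := x.2) (z := 0) (by simp only; linarith)
            simp only at this
            linarith
          · intro hx
            have := same (N := ((code l).1, (code l).2.1, 0)) (hcode l hl).1 c1 (x := x.1)
              (y := x.2) (z := 0) (by simp only; linarith)
            simp only at this
            linarith
      | some p =>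
        by_cases hpl : p ∈ l
        · refine gen (some p) (fun m => p ∈ m) hpl ?_ ?_
          · by_contra hcon
            exact h1 p (show 4 ≤ _ by omega) hpl
          · intro m hm hX
            exact ((hcode m hm).2.1 p).2 (X_some hX).2.2
        · have : ((K.erase (code l)).filter fun M => X (code l) M = some p) = ∅ := by
            rw [Finset.filter_eq_empty_iff]
            intro M _ hX
            exact hpl (((hcode l hl).2.1 p).2 (X_some hX).2.1)
          rw [this]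
          simp
    have k1 := Finset.card_le_mul_card_image (s := K.erase (code l)) 2 hfib
    have k2 := hr (code l) hlK
    have k3 := Finset.card_erase_add_one hlK
    omega
  · push Not at hex
    have := partB n 0 L hline hpt hpar hmul hVfin.toFinset hDfin.toFinset (by
      rw [← Set.ncard_eq_toFinset_card _ hVfin, ← Set.ncard_eq_toFinset_card _ hDfin]
      exact h3) (by
      rw [Nat.le_zero, Set.ncard_eq_zero (fin1 _), Set.eq_empty_iff_forall_notMem]
      rintro l ⟨hl, k1, k2⟩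
      refine k2 ((Set.Finite.mem_toFinset _).2 (hex l hl fun p hp => ?_))
      exact k1 p ((Set.Finite.mem_toFinset _).2 hp))
    simpa using this

/-- The arrangement `L` has at most `2 n + 3 + s` lines if all but `s` of its lines are on a cubic
curve of the dual plane, or in three pencils, and at most `2 n + 3` lines if at most three points
(finite or at infinity) are on more than three lines. -/
theorem result (n s : ℕ) (L : Finset (AffineSubspace ℝ (ℝ × ℝ)))
    (hline : ∀ l ∈ L, Module.finrank ℝ l.direction = 1)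
    (hpt : ∀ l ∈ L, ({p : ℝ × ℝ | p ∈ l ∧ ∃ m ∈ L, m ≠ l ∧ p ∈ m}).ncard ≤ n)
    (hpar : ∀ l ∈ L,
      ({m : AffineSubspace ℝ (ℝ × ℝ) | m ∈ L ∧ AffineSubspace.Parallel m l}).ncard ≤ n)
    (hmul : ∀ p : ℝ × ℝ, ({l : AffineSubspace ℝ (ℝ × ℝ) | l ∈ L ∧ p ∈ l}).ncard ≤ n + 1) :
    -- all but `s` lines are on a cubic curve of the dual plane
    (∀ F : MvPolynomial (Fin 3) ℝ, F.IsHomogeneous 3 → F ≠ 0 →
      ({l : AffineSubspace ℝ (ℝ × ℝ) | l ∈ L ∧ ¬ ∃ u v w : ℝ,
        (∀ p : ℝ × ℝ, p ∈ l ↔ u * p.1 + v * p.2 + w = 0) ∧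
          MvPolynomial.eval ![u, v, w] F = 0}).ncard ≤ s → L.card ≤ 2 * n + 3 + s) ∧
    -- all but `s` lines pass through a point of `V` or have a direction in `D`
    (∀ (V : Finset (ℝ × ℝ)) (D : Finset (Submodule ℝ (ℝ × ℝ))), V.card + D.card ≤ 3 →
      ({l : AffineSubspace ℝ (ℝ × ℝ) |
        l ∈ L ∧ (∀ p ∈ V, p ∉ l) ∧ l.direction ∉ D}).ncard ≤ s → L.card ≤ 2 * n + 3 + s) ∧
    -- at most three points and directions belong to more than three lines
    (({p : ℝ × ℝ | 4 ≤ ({l : AffineSubspace ℝ (ℝ × ℝ) | l ∈ L ∧ p ∈ l}).ncard}).ncard +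
      ({d : Submodule ℝ (ℝ × ℝ) |
        4 ≤ ({l : AffineSubspace ℝ (ℝ × ℝ) | l ∈ L ∧ l.direction = d}).ncard}).ncard ≤ 3 →
      L.card ≤ 2 * n + 3) :=
  ⟨fun F hF hF0 hs => partA n s L hline hpt hpar hmul F hF hF0 hs,
    fun V D hVD hs => partB n s L hline hpt hpar hmul V D hVD hs,
    fun h3 => partC n L hline hpt hpar hmul h3⟩

end Pool.Agent.Results.MP_508ad1_co.CubicCurve
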