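import Mathlib

/-!
# Arrangements with at most four directions

The line `y = m x + q` is represented by the pair `(m, q)`. In every parallel class we take the
highest line `T` and the lowest line `B`. The intersection points on such a line `P` are divided
among the classes: let `o` be the class opposite to the class of `P`; a point which is inside the
strip of `o` is given to `o`, a point above (below) this strip is given to one (the other) of the two
remaining classes. Then every line is met in such a way by at least four of the eight extreme lines,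
with at most eight exceptions in total.
-/

set_option autoImplicit false

namespace Pool.Agent.Results.MP_508ad1_co.FourDirections

open Finset

/-- The first coordinate of the intersection point of the lines `P` and `Z`. -/
private noncomputable def X (P Z : ℝ × ℝ) : ℝ := (P.2 - Z.2) / (Z.1 - P.1)

/-- The intercept of the line of slope `m` through the intersection point of `P` and `Z`. -/
private noncomputable def H (P Z : ℝ × ℝ) (m : ℝ) : ℝ := P.2 + (P.1 - m) * X P Z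

private lemma H_self {P Z : ℝ × ℝ} (h : P.1 ≠ Z.1) : H P Z Z.1 = Z.2 := by
  unfold H X
  have h1 : Z.1 - P.1 ≠ 0 := sub_ne_zero.2 h.symm
  field_simp
  ring

/-- The number of the intersection points on `P`. -/
private noncomputable def rr (D : Finset (ℝ × ℝ)) (P : ℝ × ℝ) : ℕ :=
  ((D.filter fun Z => Z.1 ≠ P.1).image (X P)).card

private lemma count_gen (D : Finset (ℝ × ℝ)) (P : ℝ × ℝ) (a : ℝ → ℝ) :
    (D.filter fun Z => Z.1 ≠ P.1 ∧ a (X P Z) = Z.1).card ≤ rr D P := by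
  classical
  unfold rr
  refine Finset.card_le_card_of_injOn (X P) ?_ ?_
  · intro Z hZ
    rw [Finset.mem_coe, Finset.mem_filter] at hZ
    rw [Finset.mem_coe]
    exact Finset.mem_image_of_mem _ (Finset.mem_filter.2 ⟨hZ.1, hZ.2.1⟩)
  · intro Z hZ W hW h
    rw [Finset.mem_coe, Finset.mem_filter] at hZ hW
    have h1 : Z.1 = W.1 := by rw [← hZ.2.2, ← hW.2.2, h]
    have h2 : Z.1 - P.1 ≠ 0 := sub_ne_zero.2 hZ.2.1
    unfold X at h
    rw [← h1, div_left_inj' h2] at h
    exact Prod.ext h1 (by linarith)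

/-- The counting lemma: `o` is the opposite class, `u` and `d` the two other classes. -/
private lemma count3 (D : Finset (ℝ × ℝ)) (P : ℝ × ℝ) {o u d t b : ℝ} (ho : o ≠ P.1)
    (hu : u ≠ P.1) (hd : d ≠ P.1) (hou : o ≠ u) (hod : o ≠ d) (hud : u ≠ d)
    (ht : ∀ Z ∈ D, Z.1 = o → Z.2 ≤ t) (hb : ∀ Z ∈ D, Z.1 = o → b ≤ Z.2) (hbt : b ≤ t) :
    (D.filter fun Z => Z.1 = o).card + (D.filter fun Z => Z.1 = u ∧ t < H P Z o).card +
      (D.filter fun Z => Z.1 = d ∧ H P Z o < b).card ≤ rr D P := by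
  classical
  refine le_trans ?_ (count_gen D P fun x =>
    if t < P.2 + (P.1 - o) * x then u else if P.2 + (P.1 - o) * x < b then d else o)
  have d1 : Disjoint (D.filter fun Z => Z.1 = o) (D.filter fun Z => Z.1 = u ∧ t < H P Z o) := by
    rw [Finset.disjoint_left]
    intro Z h1 h2
    rw [Finset.mem_filter] at h1 h2
    exact hou (h1.2.symm.trans h2.2.1)
  have d2 : Disjoint ((D.filter fun Z => Z.1 = o) ∪ (D.filter fun Z => Z.1 = u ∧ t < H P Z o))
      (D.filter fun Z => Z.1 = d ∧ H P Z o < b) := by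
    rw [Finset.disjoint_left]
    intro Z h1 h2
    rw [Finset.mem_union, Finset.mem_filter, Finset.mem_filter] at h1
    rw [Finset.mem_filter] at h2
    rcases h1 with h1 | h1
    · exact hod (h1.2.symm.trans h2.2.1)
    · exact hud (h1.2.1.symm.trans h2.2.1)
  rw [← Finset.card_union_of_disjoint d1, ← Finset.card_union_of_disjoint d2]
  refine Finset.card_le_card fun Z hZ => ?_
  rw [Finset.mem_union, Finset.mem_union, Finset.mem_filter, Finset.mem_filter,
    Finset.mem_filter] at hZ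
  rw [Finset.mem_filter]
  rcases hZ with (hZ | hZ) | hZ
  · have h1 : P.2 + (P.1 - o) * X P Z = Z.2 := by
      have := H_self (P := P) (Z := Z) (by rw [hZ.2]; exact ho.symm)
      rw [hZ.2] at this
      exact this
    refine ⟨hZ.1, by rw [hZ.2]; exact ho, ?_⟩
    rw [h1, if_neg (not_lt.2 (ht Z hZ.1 hZ.2)), if_neg (not_lt.2 (hb Z hZ.1 hZ.2)), hZ.2]
  · refine ⟨hZ.1, by rw [hZ.2.1]; exact hu, ?_⟩
    have h1 : t < P.2 + (P.1 - o) * X P Z := hZ.2.2
    rw [if_pos h1, hZ.2.1]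
  · refine ⟨hZ.1, by rw [hZ.2.1]; exact hd, ?_⟩
    have h1 : P.2 + (P.1 - o) * X P Z < b := hZ.2.2
    rw [if_neg (not_lt.2 (h1.le.trans hbt)), if_pos h1, hZ.2.1]

private lemma pair_rel {P Q Z : ℝ × ℝ} (hP : P.1 ≠ Z.1) (hQ : Q.1 ≠ Z.1) :
    (H P Z Q.1 - Q.2) * (P.1 - Z.1) + (H Q Z P.1 - P.2) * (Q.1 - Z.1) = 0 := by
  unfold H X
  have h1 : Z.1 - P.1 ≠ 0 := sub_ne_zero.2 hP.symm
  have h2 : Z.1 - Q.1 ≠ 0 := sub_ne_zero.2 hQ.symm
  field_simp
  ring

private lemma pair_unique {P Q Z W : ℝ × ℝ} (hP : P.1 ≠ Z.1) (hPQ : P.1 ≠ Q.1) (hZW : Z.1 = W.1)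
    (h1 : H P Z Q.1 = Q.2) (h2 : H P W Q.1 = Q.2) : Z = W := by
  refine Prod.ext hZW ?_
  have h3 : Z.1 - P.1 ≠ 0 := sub_ne_zero.2 hP.symm
  have h4 : P.1 - Q.1 ≠ 0 := sub_ne_zero.2 hPQ
  have h5 : X P Z = X P W := by
    unfold H at h1 h2
    have : (P.1 - Q.1) * X P Z = (P.1 - Q.1) * X P W := by linarith
    exact mul_left_cancel₀ h4 this
  unfold X at h5
  rw [← hZW, div_left_inj' h3] at h5
  linarith

/-- The pairing lemma. -/
private lemma pair_card (D : Finset (ℝ × ℝ)) {P Q : ℝ × ℝ} {c : ℝ} (hP : P.1 ≠ c)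
    (hPQ : P.1 ≠ Q.1) {R S : ℝ × ℝ → Prop} [DecidablePred R] [DecidablePred S]
    (h : ∀ Z ∈ D, Z.1 = c → H P Z Q.1 ≠ Q.2 → R Z ∨ S Z) :
    (D.filter fun Z => Z.1 = c).card ≤ (D.filter fun Z => Z.1 = c ∧ R Z).card +
      (D.filter fun Z => Z.1 = c ∧ S Z).card + 1 := by
  classical
  have h1 : (D.filter fun Z => Z.1 = c) ⊆ ((D.filter fun Z => Z.1 = c ∧ R Z) ∪
      (D.filter fun Z => Z.1 = c ∧ S Z)) ∪ (D.filter fun Z => Z.1 = c ∧ H P Z Q.1 = Q.2) := by
    intro Z hZ
    rw [Finset.mem_filter] at hZ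
    rw [Finset.mem_union, Finset.mem_union, Finset.mem_filter, Finset.mem_filter,
      Finset.mem_filter]
    by_cases h2 : H P Z Q.1 = Q.2
    · exact Or.inr ⟨hZ.1, hZ.2, h2⟩
    · rcases h Z hZ.1 hZ.2 h2 with h3 | h3
      · exact Or.inl (Or.inl ⟨hZ.1, hZ.2, h3⟩)
      · exact Or.inl (Or.inr ⟨hZ.1, hZ.2, h3⟩)
  have h2 : (D.filter fun Z => Z.1 = c ∧ H P Z Q.1 = Q.2).card ≤ 1 := by
    rw [Finset.card_le_one]
    intro Z hZ W hW
    rw [Finset.mem_filter] at hZ hW
    exact pair_unique (by rw [hZ.2.1]; exact hP) hPQ (hZ.2.1.trans hW.2.1.symm) hZ.2.2 hW.2.2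
  calc _ ≤ _ := Finset.card_le_card h1
    _ ≤ _ := Finset.card_union_le _ _
    _ ≤ _ := Nat.add_le_add (Finset.card_union_le _ _) h2

/-- both classes on the same side of `c`, above -/
private lemma pair_up (D : Finset (ℝ × ℝ)) {P Q : ℝ × ℝ} {c p q : ℝ} (hp : P.1 = p) (hq : Q.1 = q)
    (hpq : p ≠ q) (hs : 0 < (p - c) * (q - c)) :
    (D.filter fun Z => Z.1 = c).card ≤ (D.filter fun Z => Z.1 = c ∧ Q.2 < H P Z q).card +
      (D.filter fun Z => Z.1 = c ∧ P.2 < H Q Z p).card + 1 := by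
  classical
  subst hp hq
  have hpc : P.1 ≠ c := fun h => by rw [h, sub_self, zero_mul] at hs; exact lt_irrefl _ hs
  have hqc : Q.1 ≠ c := fun h => by rw [h, sub_self, mul_zero] at hs; exact lt_irrefl _ hs
  refine pair_card D hpc hpq ?_
  intro Z _ hZc hne
  subst hZc
  have h1 := pair_rel hpc hqc
  rcases lt_or_gt_of_ne hne with h2 | h2
  · right
    by_contra h3
    rw [not_lt] at h3
    have h4 : (H P Z Q.1 - Q.2) * ((P.1 - Z.1) * (Q.1 - Z.1)) < 0 :=
      mul_neg_of_neg_of_pos (by linarith) hs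
    have h5 : (H Q Z P.1 - P.2) * ((Q.1 - Z.1) * (Q.1 - Z.1)) ≤ 0 :=
      mul_nonpos_of_nonpos_of_nonneg (by linarith) (mul_self_nonneg _)
    have h6 : (H P Z Q.1 - Q.2) * ((P.1 - Z.1) * (Q.1 - Z.1)) +
        (H Q Z P.1 - P.2) * ((Q.1 - Z.1) * (Q.1 - Z.1)) = 0 := by
      linear_combination (Q.1 - Z.1) * h1
    linarith
  · exact Or.inl h2

/-- both classes on the same side of `c`, below -/
private lemma pair_down (D : Finset (ℝ × ℝ)) {P Q : ℝ × ℝ} {c p q : ℝ} (hp : P.1 = p)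
    (hq : Q.1 = q) (hpq : p ≠ q) (hs : 0 < (p - c) * (q - c)) :
    (D.filter fun Z => Z.1 = c).card ≤ (D.filter fun Z => Z.1 = c ∧ H P Z q < Q.2).card +
      (D.filter fun Z => Z.1 = c ∧ H Q Z p < P.2).card + 1 := by
  classical
  subst hp hq
  have hpc : P.1 ≠ c := fun h => by rw [h, sub_self, zero_mul] at hs; exact lt_irrefl _ hs
  have hqc : Q.1 ≠ c := fun h => by rw [h, sub_self, mul_zero] at hs; exact lt_irrefl _ hs
  refine pair_card D hpc hpq ?_
  intro Z _ hZc hne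
  subst hZc
  have h1 := pair_rel hpc hqc
  rcases lt_or_gt_of_ne hne with h2 | h2
  · exact Or.inl h2
  · right
    by_contra h3
    rw [not_lt] at h3
    have h4 : 0 < (H P Z Q.1 - Q.2) * ((P.1 - Z.1) * (Q.1 - Z.1)) :=
      mul_pos (by linarith) hs
    have h5 : 0 ≤ (H Q Z P.1 - P.2) * ((Q.1 - Z.1) * (Q.1 - Z.1)) :=
      mul_nonneg (by linarith) (mul_self_nonneg _)
    have h6 : (H P Z Q.1 - Q.2) * ((P.1 - Z.1) * (Q.1 - Z.1)) +
        (H Q Z P.1 - P.2) * ((Q.1 - Z.1) * (Q.1 - Z.1)) = 0 := by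
      linear_combination (Q.1 - Z.1) * h1
    linarith

/-- the classes on different sides of `c`: `P` is a highest, `Q` a lowest line -/
private lemma pair_cross (D : Finset (ℝ × ℝ)) {P Q : ℝ × ℝ} {c p q : ℝ} (hp : P.1 = p)
    (hq : Q.1 = q) (hpq : p ≠ q) (hs : (p - c) * (q - c) < 0) :
    (D.filter fun Z => Z.1 = c).card ≤ (D.filter fun Z => Z.1 = c ∧ H P Z q < Q.2).card +
      (D.filter fun Z => Z.1 = c ∧ P.2 < H Q Z p).card + 1 := by
  classical
  subst hp hq
  have hpc : P.1 ≠ c := fun h => by rw [h, sub_self, zero_mul] at hs; exact lt_irrefl _ hs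
  have hqc : Q.1 ≠ c := fun h => by rw [h, sub_self, mul_zero] at hs; exact lt_irrefl _ hs
  refine pair_card D hpc hpq ?_
  intro Z _ hZc hne
  subst hZc
  have h1 := pair_rel hpc hqc
  rcases lt_or_gt_of_ne hne with h2 | h2
  · exact Or.inl h2
  · right
    by_contra h3
    rw [not_lt] at h3
    have h4 : (H P Z Q.1 - Q.2) * ((P.1 - Z.1) * (Q.1 - Z.1)) < 0 :=
      mul_neg_of_pos_of_neg (by linarith) hs
    have h5 : (H Q Z P.1 - P.2) * ((Q.1 - Z.1) * (Q.1 - Z.1)) ≤ 0 :=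
      mul_nonpos_of_nonpos_of_nonneg (by linarith) (mul_self_nonneg _)
    have h6 : (H P Z Q.1 - Q.2) * ((P.1 - Z.1) * (Q.1 - Z.1)) +
        (H Q Z P.1 - P.2) * ((Q.1 - Z.1) * (Q.1 - Z.1)) = 0 := by
      linear_combination (Q.1 - Z.1) * h1
    linarith

private lemma exists_top {D : Finset (ℝ × ℝ)} {m : ℝ} (h : ∃ Z ∈ D, Z.1 = m) :
    ∃ T ∈ D, T.1 = m ∧ ∀ Z ∈ D, Z.1 = m → Z.2 ≤ T.2 := by
  classical
  obtain ⟨Z, hZ, hZm⟩ := h
  obtain ⟨T, hT, hmax⟩ := Finset.exists_max_image (D.filter fun Z => Z.1 = m) (fun Z => Z.2)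
    ⟨Z, Finset.mem_filter.2 ⟨hZ, hZm⟩⟩
  rw [Finset.mem_filter] at hT
  exact ⟨T, hT.1, hT.2, fun W hW hWm => hmax W (Finset.mem_filter.2 ⟨hW, hWm⟩)⟩

private lemma exists_bot {D : Finset (ℝ × ℝ)} {m : ℝ} (h : ∃ Z ∈ D, Z.1 = m) :
    ∃ B ∈ D, B.1 = m ∧ ∀ Z ∈ D, Z.1 = m → B.2 ≤ Z.2 := by
  classical
  obtain ⟨Z, hZ, hZm⟩ := h
  obtain ⟨T, hT, hmin⟩ := Finset.exists_min_image (D.filter fun Z => Z.1 = m) (fun Z => Z.2)
    ⟨Z, Finset.mem_filter.2 ⟨hZ, hZm⟩⟩
  rw [Finset.mem_filter] at hT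
  exact ⟨T, hT.1, hT.2, fun W hW hWm => hmin W (Finset.mem_filter.2 ⟨hW, hWm⟩)⟩

/-- four classes -/
private lemma four {D : Finset (ℝ × ℝ)} {n : ℕ} (hr : ∀ P ∈ D, rr D P ≤ n) {a b c d : ℝ}
    (hab : a < b) (hbc : b < c) (hcd : c < d) (ha : ∃ Z ∈ D, Z.1 = a) (hb : ∃ Z ∈ D, Z.1 = b)
    (hc : ∃ Z ∈ D, Z.1 = c) (hd : ∃ Z ∈ D, Z.1 = d) :
    (D.filter fun Z => Z.1 = a).card + (D.filter fun Z => Z.1 = b).card +
      (D.filter fun Z => Z.1 = c).card + (D.filter fun Z => Z.1 = d).card ≤ 2 * n + 2 := by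
  classical
  obtain ⟨T1, hT1, T1a, T1m⟩ := exists_top ha
  obtain ⟨T2, hT2, T2a, T2m⟩ := exists_top hb
  obtain ⟨T3, hT3, T3a, T3m⟩ := exists_top hc
  obtain ⟨T4, hT4, T4a, T4m⟩ := exists_top hd
  obtain ⟨B1, hB1, B1a, B1m⟩ := exists_bot ha
  obtain ⟨B2, hB2, B2a, B2m⟩ := exists_bot hb
  obtain ⟨B3, hB3, B3a, B3m⟩ := exists_bot hc
  obtain ⟨B4, hB4, B4a, B4m⟩ := exists_bot hd
  have e1 := B1m T1 hT1 T1a
  have e2 := B2m T2 hT2 T2a
  have e3 := B3m T3 hT3 T3a
  have e4 := B4m T4 hT4 T4a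
  have nab : a ≠ b := hab.ne
  have nac : a ≠ c := (hab.trans hbc).ne
  have nad : a ≠ d := (hab.trans (hbc.trans hcd)).ne
  have nbc : b ≠ c := hbc.ne
  have nbd : b ≠ d := (hbc.trans hcd).ne
  have ncd : c ≠ d := hcd.ne
  -- the eight extreme lines
  have c1 := (count3 D T1 (o := c) (u := d) (d := b) (by rw [T1a]; exact nac.symm)
    (by rw [T1a]; exact nad.symm) (by rw [T1a]; exact nab.symm) ncd nbc.symm nbd.symm T3m B3m
    e3).trans (hr T1 hT1)
  have c2 := (count3 D B1 (o := c) (u := b) (d := d) (by rw [B1a]; exact nac.symm)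
    (by rw [B1a]; exact nab.symm) (by rw [B1a]; exact nad.symm) nbc.symm ncd nbd T3m B3m
    e3).trans (hr B1 hB1)
  have c3 := (count3 D T2 (o := d) (u := a) (d := c) (by rw [T2a]; exact nbd.symm)
    (by rw [T2a]; exact nab) (by rw [T2a]; exact nbc.symm) nad.symm ncd.symm nac T4m B4m
    e4).trans (hr T2 hT2)
  have c4 := (count3 D B2 (o := d) (u := c) (d := a) (by rw [B2a]; exact nbd.symm)
    (by rw [B2a]; exact nbc.symm) (by rw [B2a]; exact nab) ncd.symm nad.symm nac.symm T4m B4m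
    e4).trans (hr B2 hB2)
  have c5 := (count3 D T3 (o := a) (u := d) (d := b) (by rw [T3a]; exact nac)
    (by rw [T3a]; exact ncd.symm) (by rw [T3a]; exact nbc) nad nab nbd.symm T1m B1m
    e1).trans (hr T3 hT3)
  have c6 := (count3 D B3 (o := a) (u := b) (d := d) (by rw [B3a]; exact nac)
    (by rw [B3a]; exact nbc) (by rw [B3a]; exact ncd.symm) nab nad nbd T1m B1m
    e1).trans (hr B3 hB3)
  have c7 := (count3 D T4 (o := b) (u := a) (d := c) (by rw [T4a]; exact nbd)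
    (by rw [T4a]; exact nad) (by rw [T4a]; exact ncd) nab.symm nbc nac T2m B2m
    e2).trans (hr T4 hT4)
  have c8 := (count3 D B4 (o := b) (u := c) (d := a) (by rw [B4a]; exact nbd)
    (by rw [B4a]; exact ncd) (by rw [B4a]; exact nad) nbc nab.symm nac.symm T2m B2m
    e2).trans (hr B4 hB4)
  -- the eight pairs
  have p1 := pair_up D T2a T4a (c := a) nbd (mul_pos (by linarith) (by linarith))
  have p2 := pair_down D B2a B4a (c := a) nbd (mul_pos (by linarith) (by linarith))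
  have p3 := pair_up D T1a T3a (c := d) nac (mul_pos_of_neg_of_neg (by linarith) (by linarith))
  have p4 := pair_down D B1a B3a (c := d) nac (mul_pos_of_neg_of_neg (by linarith) (by linarith))
  have p5 := pair_cross D T1a B3a (c := b) nac (mul_neg_of_neg_of_pos (by linarith) (by linarith))
  have p6 := pair_cross D T3a B1a (c := b) nac.symm
    (mul_neg_of_pos_of_neg (by linarith) (by linarith))
  have p7 := pair_cross D T2a B4a (c := c) nbd (mul_neg_of_neg_of_pos (by linarith) (by linarith))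
  have p8 := pair_cross D T4a B2a (c := c) nbd.symm
    (mul_neg_of_pos_of_neg (by linarith) (by linarith))
  omega

/-- three classes -/
private lemma three {D : Finset (ℝ × ℝ)} {n : ℕ} (hr : ∀ P ∈ D, rr D P ≤ n) {a b c : ℝ}
    (hab : a < b) (hbc : b < c) (ha : ∃ Z ∈ D, Z.1 = a) (hc : ∃ Z ∈ D, Z.1 = c) :
    (D.filter fun Z => Z.1 = a).card + (D.filter fun Z => Z.1 = b).card +
      (D.filter fun Z => Z.1 = c).card ≤ 2 * n + 1 := by
  classical
  obtain ⟨T1, hT1, T1a, T1m⟩ := exists_top ha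
  obtain ⟨T3, hT3, T3a, T3m⟩ := exists_top hc
  obtain ⟨B1, hB1, B1a, B1m⟩ := exists_bot ha
  obtain ⟨B3, hB3, B3a, B3m⟩ := exists_bot hc
  have e1 := B1m T1 hT1 T1a
  have e3 := B3m T3 hT3 T3a
  have nab : a ≠ b := hab.ne
  have nac : a ≠ c := (hab.trans hbc).ne
  have nbc : b ≠ c := hbc.ne
  have hx : c < c + 1 := by linarith
  have c1 := (count3 D T1 (o := c) (u := c + 1) (d := b) (by rw [T1a]; exact nac.symm)
    (by rw [T1a]; linarith) (by rw [T1a]; exact nab.symm) hx.ne nbc.symm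
    (by linarith) T3m B3m e3).trans (hr T1 hT1)
  have c6 := (count3 D B3 (o := a) (u := b) (d := c + 1) (by rw [B3a]; exact nac)
    (by rw [B3a]; exact nbc) (by rw [B3a]; exact hx.ne') nab (by linarith)
    (by linarith) T1m B1m e1).trans (hr B3 hB3)
  have p5 := pair_cross D T1a B3a (c := b) nac (mul_neg_of_neg_of_pos (by linarith) (by linarith))
  omega

/-- two classes -/
private lemma two {D : Finset (ℝ × ℝ)} {n : ℕ} (hr : ∀ P ∈ D, rr D P ≤ n) {a b : ℝ}
    (hab : a ≠ b) (hb : ∃ Z ∈ D, Z.1 = b) : (D.filter fun Z => Z.1 = a).card ≤ n := by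
  classical
  obtain ⟨P, hP, hPb⟩ := hb
  refine le_trans ?_ (hr P hP)
  refine le_trans (Finset.card_le_card ?_) (count_gen D P fun _ => a)
  intro Z hZ
  rw [Finset.mem_filter] at hZ ⊢
  exact ⟨hZ.1, by rw [hZ.2, hPb]; exact hab, hZ.2.symm⟩

private lemma core {D : Finset (ℝ × ℝ)} {n : ℕ} (hr : ∀ P ∈ D, rr D P ≤ n)
    (hcol : ∀ m : ℝ, (D.filter fun Z => Z.1 = m).card ≤ n) (h4 : (D.image Prod.fst).card ≤ 4) :
    D.card ≤ 2 * n + 2 := by
  classical
  have hsum : D.card = ∑ m ∈ D.image Prod.fst, (D.filter fun Z => Z.1 = m).card :=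
    Finset.card_eq_sum_card_image Prod.fst D
  have hmem : ∀ m ∈ D.image Prod.fst, ∃ Z ∈ D, Z.1 = m := by
    intro m hm
    obtain ⟨Z, hZ, h⟩ := Finset.mem_image.1 hm
    exact ⟨Z, hZ, h⟩
  generalize hS : D.image Prod.fst = S at hsum hmem h4
  obtain ⟨k, hk⟩ : ∃ k, S.card = k := ⟨_, rfl⟩
  have himg : S = Finset.univ.image (S.orderEmbOfFin hk) := by
    rw [← Finset.coe_inj, Finset.coe_image, Finset.coe_univ, Set.image_univ,
      Finset.range_orderEmbOfFin]
  have hm : ∀ i, S.orderEmbOfFin hk i ∈ S := fun i => Finset.orderEmbOfFin_mem S hk i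
  have hlt : ∀ i j, i < j → S.orderEmbOfFin hk i < S.orderEmbOfFin hk j := fun i j h =>
    (S.orderEmbOfFin hk).strictMono h
  have hsum2 : D.card = ∑ i : Fin k, (D.filter fun Z => Z.1 = S.orderEmbOfFin hk i).card := by
    rw [hsum]
    conv_lhs => rw [himg]
    rw [Finset.sum_image]
    intro i _ j _ h
    exact (S.orderEmbOfFin hk).injective h
  rw [hk] at h4
  generalize S.orderEmbOfFin hk = f at hsum2 hm hlt
  clear himg hk hS
  interval_cases k
  · rw [hsum2]
    simp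
  · rw [Fin.sum_univ_one] at hsum2
    have := hcol (f 0)
    omega
  · rw [Fin.sum_univ_two] at hsum2
    have h1 := two hr (hlt 0 1 (by decide)).ne (hmem _ (hm 1))
    have h2 := two hr (hlt 0 1 (by decide)).ne' (hmem _ (hm 0))
    omega
  · rw [Fin.sum_univ_three] at hsum2
    have h1 := three hr (hlt 0 1 (by decide)) (hlt 1 2 (by decide)) (hmem _ (hm 0))
      (hmem _ (hm 2))
    omega
  · rw [Fin.sum_univ_four] at hsum2
    have h1 := four hr (hlt 0 1 (by decide)) (hlt 1 2 (by decide)) (hlt 2 3 (by decide))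
      (hmem _ (hm 0)) (hmem _ (hm 1)) (hmem _ (hm 2)) (hmem _ (hm 3))
    omega

/-! ### Lines of the plane -/

/-- The point of the line `z` with parameter `t`. -/
private noncomputable def pt (s₀ : ℝ) (z : ℝ × ℝ) (t : ℝ) : ℝ × ℝ :=
  (t + s₀ * (z.1 * t + z.2), z.1 * t + z.2)

private lemma dir_span {V : Submodule ℝ (ℝ × ℝ)} (h : Module.finrank ℝ V = 1) :
    ∃ w : ℝ × ℝ, w ≠ 0 ∧ ∀ x, x ∈ V ↔ ∃ c : ℝ, c • w = x := by
  obtain ⟨w, hw0, hw⟩ := finrank_eq_one_iff'.1 h
  refine ⟨w, fun h0 => hw0 (Subtype.ext h0), fun x => ⟨fun hx => ?_, ?_⟩⟩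
  · obtain ⟨c, hc⟩ := hw ⟨x, hx⟩
    exact ⟨c, congrArg Subtype.val hc⟩
  · rintro ⟨c, rfl⟩
    exact V.smul_mem c w.2

private lemma exists_shift (L : Finset (AffineSubspace ℝ (ℝ × ℝ)))
    (hline : ∀ l ∈ L, Module.finrank ℝ l.direction = 1) :
    ∃ s₀ : ℝ, ∀ l ∈ L, (s₀, (1 : ℝ)) ∉ l.direction := by
  classical
  have h : ∀ l : AffineSubspace ℝ (ℝ × ℝ), ∃ r : ℝ, l ∈ L → ∀ s : ℝ,
      (s, (1 : ℝ)) ∈ l.direction → s = r := by
    intro l
    by_cases hl : l ∈ L
    · obtain ⟨w, hw0, hw⟩ := dir_span (hline l hl)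
      refine ⟨w.1 / w.2, fun _ s hs => ?_⟩
      obtain ⟨c, hc⟩ := (hw _).1 hs
      have h1 : c * w.1 = s := congrArg Prod.fst hc
      have h2 : c * w.2 = 1 := congrArg Prod.snd hc
      have h3 : w.2 ≠ 0 := by
        intro h0
        rw [h0, mul_zero] at h2
        exact zero_ne_one h2
      rw [eq_div_iff h3, ← h1]
      calc c * w.1 * w.2 = (c * w.2) * w.1 := by ring
        _ = w.1 := by rw [h2, one_mul]
    · exact ⟨0, fun h => absurd h hl⟩
  choose r hr using h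
  obtain ⟨s₀, hs₀⟩ := Infinite.exists_notMem_finset (L.image r)
  refine ⟨s₀, fun l hl hmem => hs₀ ?_⟩
  rw [hr l hl s₀ hmem]
  exact Finset.mem_image_of_mem r hl

private lemma exists_code (s₀ : ℝ) (l : AffineSubspace ℝ (ℝ × ℝ))
    (h1 : Module.finrank ℝ l.direction = 1) (hs : (s₀, (1 : ℝ)) ∉ l.direction) :
    ∃ z : ℝ × ℝ, (∀ p : ℝ × ℝ, p ∈ l ↔ p.2 = z.1 * (p.1 - s₀ * p.2) + z.2) ∧
      ∀ w : ℝ × ℝ, w ∈ l.direction ↔ w.2 = z.1 * (w.1 - s₀ * w.2) := by
  obtain ⟨w, hw0, hw⟩ := dir_span h1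
  have hd : w.1 - s₀ * w.2 ≠ 0 := by
    intro h0
    have h2 : w.2 ≠ 0 := by
      intro h2
      apply hw0
      rw [h2, mul_zero, sub_zero] at h0
      exact Prod.ext h0 h2
    apply hs
    rw [hw]
    refine ⟨(w.2)⁻¹, Prod.ext ?_ ?_⟩
    · show (w.2)⁻¹ * w.1 = s₀
      rw [sub_eq_zero.1 h0]
      field_simp
    · show (w.2)⁻¹ * w.2 = 1
      exact inv_mul_cancel₀ h2
  set m : ℝ := w.2 / (w.1 - s₀ * w.2) with hm
  have hm2 : m * (w.1 - s₀ * w.2) = w.2 := div_mul_cancel₀ _ hd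
  have hdir : ∀ x : ℝ × ℝ, x ∈ l.direction ↔ x.2 = m * (x.1 - s₀ * x.2) := by
    intro x
    rw [hw]
    constructor
    · rintro ⟨c, rfl⟩
      show c * w.2 = m * (c * w.1 - s₀ * (c * w.2))
      linear_combination (-c) * hm2
    · intro hx
      have e1 : (x.1 - s₀ * x.2) / (w.1 - s₀ * w.2) * (w.1 - s₀ * w.2) = x.1 - s₀ * x.2 :=
        div_mul_cancel₀ _ hd
      have e2 : (x.1 - s₀ * x.2) / (w.1 - s₀ * w.2) * w.2 = x.2 := by
        calc (x.1 - s₀ * x.2) / (w.1 - s₀ * w.2) * w.2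
            = (x.1 - s₀ * x.2) / (w.1 - s₀ * w.2) * (m * (w.1 - s₀ * w.2)) := by rw [hm2]
          _ = m * ((x.1 - s₀ * x.2) / (w.1 - s₀ * w.2) * (w.1 - s₀ * w.2)) := by ring
          _ = x.2 := by rw [e1, ← hx]
      refine ⟨(x.1 - s₀ * x.2) / (w.1 - s₀ * w.2), Prod.ext ?_ e2⟩
      show (x.1 - s₀ * x.2) / (w.1 - s₀ * w.2) * w.1 = x.1
      linear_combination e1 + s₀ * e2
  have hne : (l : Set (ℝ × ℝ)).Nonempty := by
    rw [AffineSubspace.nonempty_iff_ne_bot]
    rintro rfl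
    rw [AffineSubspace.direction_bot, finrank_bot] at h1
    exact zero_ne_one h1
  obtain ⟨p₀, hp₀⟩ := hne
  refine ⟨(m, p₀.2 - m * (p₀.1 - s₀ * p₀.2)), fun p => ?_, hdir⟩
  have e1 : p ∈ l ↔ p - p₀ ∈ l.direction := by
    rw [← vsub_eq_sub]
    exact (AffineSubspace.vsub_right_mem_direction_iff_mem hp₀ p).symm
  rw [e1, hdir]
  show p.2 - p₀.2 = m * (p.1 - p₀.1 - s₀ * (p.2 - p₀.2)) ↔
    p.2 = m * (p.1 - s₀ * p.2) + (p₀.2 - m * (p₀.1 - s₀ * p₀.2))
  constructor
  · intro h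
    linear_combination h
  · intro h
    linear_combination h

/-- Let `L` be a finite set of lines of the plane such that each line of `L` meets the other lines
in at most `n` points and is parallel to at most `n` lines of `L` (itself included). If all the
lines of `L`, with at most `s` exceptions, have at most four directions, then `L` has at most
`2 n + 2 + s` lines. -/
theorem result (n s : ℕ) (L : Finset (AffineSubspace ℝ (ℝ × ℝ)))
    (hline : ∀ l ∈ L, Module.finrank ℝ l.direction = 1)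
    (hpt : ∀ l ∈ L, ({p : ℝ × ℝ | p ∈ l ∧ ∃ m ∈ L, m ≠ l ∧ p ∈ m}).ncard ≤ n)
    (hpar : ∀ l ∈ L,
      ({m : AffineSubspace ℝ (ℝ × ℝ) | m ∈ L ∧ AffineSubspace.Parallel m l}).ncard ≤ n)
    (V : Finset (Submodule ℝ (ℝ × ℝ))) (hV : V.card ≤ 4)
    (hs : ({l : AffineSubspace ℝ (ℝ × ℝ) | l ∈ L ∧ l.direction ∉ V}).ncard ≤ s) :
    L.card ≤ 2 * n + 2 + s := by
  classical
  obtain ⟨s₀, hs₀⟩ := exists_shift L hline
  have hex : ∀ l : AffineSubspace ℝ (ℝ × ℝ), ∃ z : ℝ × ℝ, l ∈ L →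
      (∀ p : ℝ × ℝ, p ∈ l ↔ p.2 = z.1 * (p.1 - s₀ * p.2) + z.2) ∧
      ∀ w : ℝ × ℝ, w ∈ l.direction ↔ w.2 = z.1 * (w.1 - s₀ * w.2) := by
    intro l
    by_cases hl : l ∈ L
    · obtain ⟨z, hz⟩ := exists_code s₀ l (hline l hl) (hs₀ l hl)
      exact ⟨z, fun _ => hz⟩
    · exact ⟨0, fun h => absurd h hl⟩
  choose code hcode using hex
  have hinj : ∀ l ∈ L, ∀ l' ∈ L, code l = code l' → l = l' := by
    intro l hl l' hl' h
    ext p
    rw [(hcode l hl).1, (hcode l' hl').1, h]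
  have hdir : ∀ l ∈ L, ∀ l' ∈ L, ((code l).1 = (code l').1 ↔ l.direction = l'.direction) := by
    intro l hl l' hl'
    constructor
    · intro h
      ext w
      rw [(hcode l hl).2, (hcode l' hl').2, h]
    · intro h
      have h1 : (1 + s₀ * (code l).1, (code l).1) ∈ l.direction := by
        rw [(hcode l hl).2]
        show (code l).1 = (code l).1 * (1 + s₀ * (code l).1 - s₀ * (code l).1)
        ring
      rw [h, (hcode l' hl').2] at h1
      have h2 : (code l).1 = (code l').1 * (1 + s₀ * (code l).1 - s₀ * (code l).1) := h1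
      linear_combination h2
  set L' := L.filter fun l => l.direction ∈ V with hL'
  have hsub : ∀ l ∈ L', l ∈ L := fun l hl => (Finset.mem_filter.1 hl).1
  set D := L'.image code with hD
  have hDcard : D.card = L'.card := Finset.card_image_of_injOn fun l hl l' hl' h =>
    hinj l (hsub l hl) l' (hsub l' hl') h
  -- at most four slopes
  have h4 : (D.image Prod.fst).card ≤ 4 := by
    refine le_trans ?_ hV
    have hch : ∀ m : ℝ, ∃ v : Submodule ℝ (ℝ × ℝ), m ∈ D.image Prod.fst →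
        v ∈ V ∧ ∃ l ∈ L, (code l).1 = m ∧ l.direction = v := by
      intro m
      by_cases hm : m ∈ D.image Prod.fst
      · obtain ⟨Z, hZ, h1⟩ := Finset.mem_image.1 hm
        obtain ⟨l, hl, h2⟩ := Finset.mem_image.1 hZ
        exact ⟨l.direction, fun _ => ⟨(Finset.mem_filter.1 hl).2, l, hsub l hl,
          by rw [h2, h1], rfl⟩⟩
      · exact ⟨⊥, fun h => absurd h hm⟩
    choose g hg using hch
    refine Finset.card_le_card_of_injOn g (fun m hm => (hg m hm).1) ?_
    intro m hm m' hm' h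
    obtain ⟨_, l, hl, h1, h2⟩ := hg m hm
    obtain ⟨_, l', hl', h3, h5⟩ := hg m' hm'
    rw [← h1, ← h3, hdir l hl l' hl', h2, h5, h]
  -- the parallel classes
  have hcol : ∀ m : ℝ, (D.filter fun Z => Z.1 = m).card ≤ n := by
    intro m
    rcases (D.filter fun Z => Z.1 = m).eq_empty_or_nonempty with h0 | ⟨Z, hZ⟩
    · rw [h0]
      simp
    · obtain ⟨hZD, hZm⟩ := Finset.mem_filter.1 hZ
      obtain ⟨l, hl, hlZ⟩ := Finset.mem_image.1 hZD
      have hlL := hsub l hl
      refine le_trans ?_ (hpar l hlL)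
      have hfin : ({m : AffineSubspace ℝ (ℝ × ℝ) | m ∈ L ∧ AffineSubspace.Parallel m l}).Finite :=
        L.finite_toSet.subset fun x hx => hx.1
      have e1 : (D.filter fun Z => Z.1 = m).card =
          ((L'.filter fun l' => (code l').1 = m)).card := by
        rw [hD, Finset.filter_image]
        exact Finset.card_image_of_injOn fun x hx y hy h =>
          hinj x (hsub x (Finset.mem_filter.1 hx).1) y (hsub y (Finset.mem_filter.1 hy).1) h
      rw [e1, ← Set.ncard_coe_finset]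
      refine Set.ncard_le_ncard ?_ hfin
      intro l' hl'
      rw [Finset.mem_coe, Finset.mem_filter] at hl'
      have hl'L := hsub l' hl'.1
      refine ⟨hl'L, ?_⟩
      rw [AffineSubspace.parallel_iff_direction_eq_and_eq_bot_iff_eq_bot]
      refine ⟨(hdir l' hl'L l hlL).1 (by rw [hl'.2, hlZ, hZm]), ?_⟩
      have hb : ∀ x ∈ L, x ≠ ⊥ := by
        rintro x hx rfl
        have := hline _ hx
        rw [AffineSubspace.direction_bot, finrank_bot] at this
        exact zero_ne_one this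
      exact ⟨fun h => absurd h (hb l' hl'L), fun h => absurd h (hb l hlL)⟩
  -- the points
  have hpt_eq : ∀ l ∈ L, ∀ m ∈ L, (code m).1 ≠ (code l).1 →
      pt s₀ (code l) (X (code l) (code m)) ∈ l ∧ pt s₀ (code l) (X (code l) (code m)) ∈ m := by
    intro l hl m hm hne
    have h1 : (code m).1 - (code l).1 ≠ 0 := sub_ne_zero.2 hne
    have h2 : X (code l) (code m) * ((code m).1 - (code l).1) = (code l).2 - (code m).2 :=
      div_mul_cancel₀ _ h1
    rw [(hcode l hl).1, (hcode m hm).1]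
    unfold pt
    refine ⟨?_, ?_⟩
    · show (code l).1 * X (code l) (code m) + (code l).2 = (code l).1 *
        (X (code l) (code m) + s₀ * ((code l).1 * X (code l) (code m) + (code l).2) -
          s₀ * ((code l).1 * X (code l) (code m) + (code l).2)) + (code l).2
      ring
    · show (code l).1 * X (code l) (code m) + (code l).2 = (code m).1 *
        (X (code l) (code m) + s₀ * ((code l).1 * X (code l) (code m) + (code l).2) -
          s₀ * ((code l).1 * X (code l) (code m) + (code l).2)) + (code m).2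
      linear_combination (-1) * h2
  have hfinp : ∀ l ∈ L, ({p : ℝ × ℝ | p ∈ l ∧ ∃ m ∈ L, m ≠ l ∧ p ∈ m}).Finite := by
    intro l hl
    refine (L.image fun m => pt s₀ (code l) (X (code l) (code m))).finite_toSet.subset ?_
    rintro p ⟨hp, m, hm, hml, hpm⟩
    rw [(hcode l hl).1] at hp
    rw [(hcode m hm).1] at hpm
    rw [Finset.mem_coe, Finset.mem_image]
    refine ⟨m, hm, ?_⟩
    have hne : (code m).1 ≠ (code l).1 := by
      intro h
      apply hml
      apply hinj m hm l hl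
      refine Prod.ext h ?_
      rw [h] at hpm
      linarith
    have h1 : (code m).1 - (code l).1 ≠ 0 := sub_ne_zero.2 hne
    have h2 : X (code l) (code m) = p.1 - s₀ * p.2 := by
      unfold X
      rw [div_eq_iff h1]
      linear_combination hpm - hp
    unfold pt
    rw [h2]
    refine Prod.ext ?_ ?_
    · show p.1 - s₀ * p.2 + s₀ * ((code l).1 * (p.1 - s₀ * p.2) + (code l).2) = p.1
      linear_combination (-s₀) * hp
    · show (code l).1 * (p.1 - s₀ * p.2) + (code l).2 = p.2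
      exact hp.symm
  have hr : ∀ P ∈ D, rr D P ≤ n := by
    intro P hP
    obtain ⟨l, hl, rfl⟩ := Finset.mem_image.1 hP
    have hlL := hsub l hl
    refine le_trans ?_ (hpt l hlL)
    unfold rr
    have hptinj : Function.Injective (pt s₀ (code l)) := by
      intro t t' h
      have h1 := congrArg Prod.fst h
      have h2 := congrArg Prod.snd h
      simp only [pt] at h1 h2
      linear_combination h1 - s₀ * h2
    rw [← Finset.card_image_of_injective _ hptinj, ← Set.ncard_coe_finset]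
    refine Set.ncard_le_ncard ?_ (hfinp l hlL)
    intro p hp
    rw [Finset.mem_coe, Finset.mem_image] at hp
    obtain ⟨t, ht, rfl⟩ := hp
    obtain ⟨Z, hZ, rfl⟩ := Finset.mem_image.1 ht
    obtain ⟨hZD, hZne⟩ := Finset.mem_filter.1 hZ
    obtain ⟨m, hm, rfl⟩ := Finset.mem_image.1 hZD
    have h1 := hpt_eq l hlL m (hsub m hm) hZne
    refine ⟨h1.1, m, hsub m hm, ?_, h1.2⟩
    rintro rfl
    exact hZne rfl
  have hc := core hr hcol h4
  rw [hDcard] at hc
  have hsum : L.card = L'.card + (L.filter fun l => ¬ l.direction ∈ V).card :=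
    (Finset.card_filter_add_card_filter_not (s := L) fun l => l.direction ∈ V).symm
  have h5 : (L.filter fun l => ¬ l.direction ∈ V).card ≤ s := by
    rw [← Set.ncard_coe_finset]
    refine le_trans (le_of_eq ?_) hs
    congr 1
    ext l
    simp
  omega

end Pool.Agent.Results.MP_508ad1_co.FourDirections
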